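import Pool.Agent.Helper78.SPN.ZF
import Pool.Agent.Helper79.CG.CC

/-!
# Row CCS (MP_005e41): the chart of the Spin group for the trivial group
-/

set_option autoImplicit false
set_option linter.unusedSectionVars false

namespace Pool.Agent.Helper78.SPN

open MvPolynomial Matrix Pool.Agent.Helper14.RG Pool.Agent.Helper97.CG Pool.Agent.Helper79.CG
  Pool.Agent.Helper67.SPN

universe u

section Det

variable {k : Type*} [Field k] {e : ℕ}

/-- the minor at the first place -/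
def mn (a : Matrix (Fin (e + 1)) (Fin (e + 1)) k) : k := (a.submatrix Fin.succ Fin.succ).det

/-- the determinant with first entry zero -/
def rs (a : Matrix (Fin (e + 1)) (Fin (e + 1)) k) : k :=
  (Matrix.of fun i j => if i = 0 ∧ j = 0 then 0 else a i j).det

lemma det_split (a : Matrix (Fin (e + 1)) (Fin (e + 1)) k) : a.det = a 0 0 * mn a + rs a := by
  unfold rs
  rw [Matrix.det_succ_row_zero, Matrix.det_succ_row_zero, Fin.sum_univ_succ, Fin.sum_univ_succ]
  have h1 : ∀ j : Fin e, (Matrix.of fun i j => if i = 0 ∧ j = 0 then 0 else a i j).submatrix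
      Fin.succ (Fin.succAbove j.succ) = a.submatrix Fin.succ (Fin.succAbove j.succ) := by
    intro j
    ext x y
    show (if (Fin.succ x = 0 ∧ Fin.succAbove j.succ y = 0) then (0 : k)
      else a (Fin.succ x) (Fin.succAbove j.succ y)) = a (Fin.succ x) (Fin.succAbove j.succ y)
    rw [if_neg]
    rintro ⟨h, _⟩
    exact Fin.succ_ne_zero _ h
  simp only [h1]
  have h2 : ∀ j : Fin e, (Matrix.of fun i j => if i = 0 ∧ j = 0 then 0 else a i j) 0 j.succ =
      a 0 j.succ := by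
    intro j
    show (if ((0 : Fin (e + 1)) = 0 ∧ j.succ = 0) then (0 : k) else a 0 j.succ) = _
    rw [if_neg]
    rintro ⟨_, h⟩
    exact Fin.succ_ne_zero _ h
  have h3 : (Matrix.of fun i j => if i = 0 ∧ j = 0 then 0 else a i j) 0 0 = (0 : k) := by
    show (if ((0 : Fin (e + 1)) = 0 ∧ (0 : Fin (e + 1)) = 0) then (0 : k) else a 0 0) = 0
    rw [if_pos ⟨rfl, rfl⟩]
  simp only [h2, h3]
  have h4 : a.submatrix Fin.succ (Fin.succAbove 0) = a.submatrix Fin.succ Fin.succ := by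
    rw [Fin.succAbove_zero]
  rw [h4]
  simp [mn]

lemma mn_congr {a b : Matrix (Fin (e + 1)) (Fin (e + 1)) k}
    (h : ∀ p : Fin (e + 1) × Fin (e + 1), p ≠ (0, 0) → a p.1 p.2 = b p.1 p.2) : mn a = mn b := by
  unfold mn
  congr 1
  ext i j
  exact h (i.succ, j.succ) (fun hh => Fin.succ_ne_zero i (congrArg Prod.fst hh))

lemma rs_congr {a b : Matrix (Fin (e + 1)) (Fin (e + 1)) k}
    (h : ∀ p : Fin (e + 1) × Fin (e + 1), p ≠ (0, 0) → a p.1 p.2 = b p.1 p.2) : rs a = rs b := by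
  unfold rs
  congr 1
  ext i j
  show (if i = 0 ∧ j = 0 then (0 : k) else a i j) = (if i = 0 ∧ j = 0 then (0 : k) else b i j)
  by_cases hij : i = 0 ∧ j = 0
  · rw [if_pos hij, if_pos hij]
  · rw [if_neg hij, if_neg hij]
    exact h (i, j) (fun hh => hij ⟨congrArg Prod.fst hh, congrArg Prod.snd hh⟩)

end Det

section Coord

variable {k : Type u} [Field k] {e : ℕ} {w : Type} [Fintype w] [DecidableEq w]

lemma tt_inj [CharZero k] [IsAlgClosed k] (h1 : ST_LEVF k) {ε : k} {d : Bool} {Jw : Matrix w w k}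
    (hd : IsSg ε d) (hJ : IsForm ε Jw) (hY : ∀ Y : Matrix w w k, Y.det = 1 → Y = 1)
    (x x' : IsoG (LJ (Fin e) ε Jw)) (hx : (b11 (isoHom _ x)).det ≠ 0)
    (hx' : (b11 (isoHom _ x')).det ≠ 0)
    (htt : tt d ε Jw (isoHom _ x) = tt d ε Jw (isoHom _ x')) :
    isoHom _ x' = isoHom _ x := by
  set ρ := isoHom (LJ (Fin e) ε Jw) with hρ
  have hiso : ∀ x, (ρ x)ᵀ * LJ (Fin e) ε Jw * ρ x = LJ (Fin e) ε Jw := fun x => x.2
  have hdet : ∀ x, (ρ x).det = 1 := fun x => x.1.2
  obtain ⟨e1, e2, e3, e4, e5⟩ := tt_inr htt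
  obtain ⟨r1, _, r3, r4, r5⟩ := h1 e w ε Jw hJ (ρ x) (hiso x) hx
  obtain ⟨r1', _, r3', r4', r5'⟩ := h1 e w ε Jw hJ (ρ x') (hiso x') hx'
  have hYx : lY (ρ x) = 1 := hY _ (by rw [← r5, hdet])
  have hYx' : lY (ρ x') = 1 := hY _ (by rw [← r5', hdet])
  have r1s : lA (ρ x) + ε • (lA (ρ x))ᵀ + (1 : k) • ((lC (ρ x))ᵀ * Jw * lC (ρ x)) = 0 := by
    rw [one_smul]; exact r1
  have r1s' : lA (ρ x') + ε • (lA (ρ x'))ᵀ + (1 : k) • ((lC (ρ x'))ᵀ * Jw * lC (ρ x')) = 0 := by
    rw [one_smul]; exact r1'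
  have k1 := skw_of hd (skewK (symX hJ.symm _) r1s)
  have k1' := skw_of hd (skewK (symX hJ.symm _) r1s')
  have kk : mK Jw (ρ x) = mK Jw (ρ x') := by
    rw [← show skw ε (fun p : KI e d => mK Jw (ρ x) p.1.1 p.1.2) = mK Jw (ρ x) from k1,
      ← show skw ε (fun p : KI e d => mK Jw (ρ x') p.1.1 p.1.2) = mK Jw (ρ x') from k1']
    congr 1
    funext p
    exact e2 p
  have hAeq : lA (ρ x) = lA (ρ x') := by
    have : lA (ρ x) + ((1 : k) * 2⁻¹) • ((lC (ρ x))ᵀ * Jw * lC (ρ x)) =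
      lA (ρ x') + ((1 : k) * 2⁻¹) • ((lC (ρ x'))ᵀ * Jw * lC (ρ x')) := kk
    rw [e1] at this
    exact add_right_cancel this
  have k2 : skw ε (fun p : KI e d => mK' ε Jw (ρ x) p.1.1 p.1.2) = mK' ε Jw (ρ x) :=
    skw_of hd (skewK (symX hJ.symm _) r3)
  have k2' : skw ε (fun p : KI e d => mK' ε Jw (ρ x') p.1.1 p.1.2) = mK' ε Jw (ρ x') :=
    skw_of hd (skewK (symX hJ.symm _) r3')
  have kk' : mK' ε Jw (ρ x) = mK' ε Jw (ρ x') := by
    rw [← k2, ← k2']
    congr 1
    funext p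
    exact e4 p
  have hBeq : mB (ρ x) = mB (ρ x') := by
    have : mB (ρ x) + (ε * 2⁻¹) • ((mD (ρ x))ᵀ * Jw * mD (ρ x)) =
      mB (ρ x') + (ε * 2⁻¹) • ((mD (ρ x'))ᵀ * Jw * mD (ρ x')) := kk'
    rw [e3] at this
    exact add_right_cancel this
  have q1 : ρ x = nLow Jw (lA (ρ x)) (lC (ρ x)) * nUp ε Jw (mB (ρ x)) (mD (ρ x)) *
    dg (b11 (ρ x)) ((b11 (ρ x))ᵀ)⁻¹ (lY (ρ x)) := r4
  have q2 : ρ x' = nLow Jw (lA (ρ x')) (lC (ρ x')) * nUp ε Jw (mB (ρ x')) (mD (ρ x')) *
    dg (b11 (ρ x')) ((b11 (ρ x'))ᵀ)⁻¹ (lY (ρ x')) := r4'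
  rw [q2, ← hAeq, ← hBeq, ← e1, ← e3, ← e5, hYx', ← hYx, ← q1]

lemma tt_surj [CharZero k] [IsAlgClosed k] (h2 : ST_LEVC k) {ε : k} {d : Bool}
    {Jw : Matrix w w k} (hd : IsSg ε d) (hJ : IsForm ε Jw) (v : NI e d w → k)
    (hα0 : (Matrix.of fun i j => v (Sum.inr (Sum.inr (Sum.inr (Sum.inr (i, j)))))).det ≠ 0) :
    ∃ x : IsoG (LJ (Fin e) ε Jw), tt d ε Jw (isoHom _ x) = v ∧ b11 (isoHom _ x) =
      Matrix.of fun i j => v (Sum.inr (Sum.inr (Sum.inr (Sum.inr (i, j))))) := by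
  have hε := hd.sq
  set α : Matrix (Fin e) (Fin e) k :=
    Matrix.of fun i j => v (Sum.inr (Sum.inr (Sum.inr (Sum.inr (i, j))))) with hα
  set C : Matrix w (Fin e) k := Matrix.of fun i j => v (Sum.inl (i, j)) with hCdef
  set D : Matrix w (Fin e) k := Matrix.of fun i j => v (Sum.inr (Sum.inr (Sum.inl (i, j))))
    with hDdef
  set K : Matrix (Fin e) (Fin e) k := skw ε (fun p : KI e d => v (Sum.inr (Sum.inl p))) with hK
  set K' : Matrix (Fin e) (Fin e) k :=
    skw ε (fun p : KI e d => v (Sum.inr (Sum.inr (Sum.inr (Sum.inl p))))) with hK'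
  have hKs : Kᵀ = -(ε • K) := skw_transpose hd _
  have hKs' : K'ᵀ = -(ε • K') := skw_transpose hd _
  set a1 := K - ((1 : k) * 2⁻¹) • (Cᵀ * Jw * C) with ha1
  set b1 := K' - (ε * 2⁻¹) • (Dᵀ * Jw * D) with hb1
  have hr1 : a1 + ε • a1ᵀ + Cᵀ * Jw * C = 0 := by
    have := skewA (c := (1 : k)) hε (symX hJ.symm C) hKs
    rw [one_smul] at this
    exact this
  have hr2 : b1 + ε • b1ᵀ + ε • (Dᵀ * Jw * D) = 0 := skewA (c := ε) hε (symX hJ.symm D) hKs'
  obtain ⟨s1, s2, s3, s4, s5, _, s7, s8⟩ := h2 e w ε Jw hJ a1 b1 α C D 1 hr1 hr2 hα0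
    (by rw [Matrix.transpose_one, Matrix.one_mul, Matrix.mul_one]) _ rfl
  set y := nLow Jw a1 C * nUp ε Jw b1 D * dg α (αᵀ)⁻¹ (1 : Matrix w w k) with hy
  have s7' : mB y = b1 := s7
  have s8' : mD y = D := s8
  refine ⟨⟨⟨y, by rw [s2, Matrix.det_one]⟩, s1⟩, ?_, s3⟩
  show tt d ε Jw y = v
  funext p
  rcases p with p | p | p | p | p
  · show lC y p.1 p.2 = _
    rw [s5]; rfl
  · show mK Jw y p.1.1 p.1.2 = _
    have : mK Jw y = K := by
      unfold mK
      rw [s4, s5, ha1]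
      exact sub_add_cancel _ _
    rw [this, hK]
    exact skw_free ε _ p
  · show mD y p.1 p.2 = _
    rw [s8']; rfl
  · show mK' ε Jw y p.1.1 p.1.2 = _
    have : mK' ε Jw y = K' := by
      unfold mK'
      rw [s7', s8', hb1]
      exact sub_add_cancel _ _
    rw [this, hK']
    exact skw_free ε _ p
  · show b11 y p.1 p.2 = _
    rw [s3]; rfl

/-- the coordinates with the entry at the first place replaced by `ζ` -/
noncomputable def tz (ζ : k) (Jw : Matrix w w k)
    (y : Matrix (Fin (e + 1) ⊕ (Fin (e + 1) ⊕ w)) (Fin (e + 1) ⊕ (Fin (e + 1) ⊕ w)) k) :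
    NI (e + 1) false w → k :=
  Sum.elim (fun p => lC y p.1 p.2) (Sum.elim (fun p => mK Jw y p.1.1 p.1.2)
    (Sum.elim (fun p => mD y p.1 p.2) (Sum.elim (fun p => mK' 1 Jw y p.1.1 p.1.2)
      (fun p => if p = (0, 0) then ζ else b11 y p.1 p.2))))

lemma tz_of_tt {ζ : k} {Jw : Matrix w w k}
    {y : Matrix (Fin (e + 1) ⊕ (Fin (e + 1) ⊕ w)) (Fin (e + 1) ⊕ (Fin (e + 1) ⊕ w)) k}
    {v v' : NI (e + 1) false w → k} (h : tt false 1 Jw y = v')
    (h0 : v (Sum.inr (Sum.inr (Sum.inr (Sum.inr (0, 0))))) = ζ)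
    (hne : ∀ j, j ≠ Sum.inr (Sum.inr (Sum.inr (Sum.inr (0, 0)))) → v' j = v j) :
    tz ζ Jw y = v := by
  funext j
  rcases j with p | p | p | p | p
  · rw [← hne _ (by simp)]
    exact congrFun h (Sum.inl p)
  · rw [← hne _ (by simp)]
    exact congrFun h (Sum.inr (Sum.inl p))
  · rw [← hne _ (by simp)]
    exact congrFun h (Sum.inr (Sum.inr (Sum.inl p)))
  · rw [← hne _ (by simp)]
    exact congrFun h (Sum.inr (Sum.inr (Sum.inr (Sum.inl p))))
  · show (if p = (0, 0) then ζ else b11 y p.1 p.2) = _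
    by_cases hp : p = (0, 0)
    · rw [if_pos hp, hp, h0]
    · rw [if_neg hp, ← hne _ (by simpa using hp)]
      exact congrFun h (Sum.inr (Sum.inr (Sum.inr (Sum.inr p))))

lemma tt_of_tz {ζ ζ' : k} {Jw : Matrix w w k}
    {y y' : Matrix (Fin (e + 1) ⊕ (Fin (e + 1) ⊕ w)) (Fin (e + 1) ⊕ (Fin (e + 1) ⊕ w)) k}
    (hz : ζ ^ 2 = (b11 y).det) (hz' : ζ' ^ 2 = (b11 y').det) (hm : mn (b11 y) ≠ 0)
    (h : tz ζ Jw y = tz ζ' Jw y') : ζ = ζ' ∧ tt false 1 Jw y = tt false 1 Jw y' := by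
  have h0 : ζ = ζ' := by
    have h1 := congrFun h (Sum.inr (Sum.inr (Sum.inr (Sum.inr (0, 0)))))
    have h2 : (if ((0, 0) : Fin (e + 1) × Fin (e + 1)) = (0, 0) then ζ else b11 y 0 0) =
      (if ((0, 0) : Fin (e + 1) × Fin (e + 1)) = (0, 0) then ζ' else b11 y' 0 0) := h1
    rwa [if_pos rfl, if_pos rfl] at h2
  have hp : ∀ p : Fin (e + 1) × Fin (e + 1), p ≠ (0, 0) → b11 y p.1 p.2 = b11 y' p.1 p.2 := by
    intro p hp
    have h1 := congrFun h (Sum.inr (Sum.inr (Sum.inr (Sum.inr p))))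
    have h2 : (if p = (0, 0) then ζ else b11 y p.1 p.2) =
      (if p = (0, 0) then ζ' else b11 y' p.1 p.2) := h1
    rwa [if_neg hp, if_neg hp] at h2
  have h00 : b11 y 0 0 = b11 y' 0 0 := by
    rw [det_split] at hz hz'
    rw [← mn_congr hp, ← rs_congr hp, ← h0, hz] at hz'
    exact mul_right_cancel₀ hm (add_right_cancel hz')
  refine ⟨h0, ?_⟩
  funext j
  rcases j with p | p | p | p | p
  · exact congrFun h (Sum.inl p)
  · exact congrFun h (Sum.inr (Sum.inl p))
  · exact congrFun h (Sum.inr (Sum.inr (Sum.inl p)))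
  · exact congrFun h (Sum.inr (Sum.inr (Sum.inr (Sum.inl p))))
  · show b11 y p.1 p.2 = b11 y' p.1 p.2
    by_cases hpp : p = (0, 0)
    · rw [hpp]; exact h00
    · exact hp p hpp

end Coord

section Spin

variable {k : Type u} [Field k] [CharZero k] {n : Type} [Fintype n] [DecidableEq n]

lemma neg_one_mem [Nonempty n] : (-1 : Cln n k) ∈ spinGroup (Qn n k) := by
  obtain ⟨i⟩ := ‹Nonempty n›
  set v : n → k := Pi.single i 1 with hv
  have hvv : v ⬝ᵥ v = 1 := by rw [hv, single_dotProduct, Pi.single_eq_same, mul_one]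
  have h1 : CliffordAlgebra.ι (Qn n k) v * CliffordAlgebra.ι (Qn n k) v = 1 := by
    rw [ι_sq, hvv, map_one]
  have h2 : CliffordAlgebra.ι (Qn n k) (-v) * CliffordAlgebra.ι (Qn n k) (-v) = 1 := by
    rw [map_neg, neg_mul_neg, h1]
  let a : (Cln n k)ˣ := ⟨_, _, h1, h1⟩
  let b : (Cln n k)ˣ := ⟨_, _, h2, h2⟩
  have hab : ((a * b : (Cln n k)ˣ) : Cln n k) = -1 := by
    show CliffordAlgebra.ι (Qn n k) v * CliffordAlgebra.ι (Qn n k) (-v) = -1
    rw [map_neg, mul_neg, h1]
  refine spinGroup.mem_iff.2 ⟨pinGroup.mem_iff.2 ⟨⟨a * b, ?_, hab⟩, ?_⟩, ?_⟩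
  · exact Subgroup.mul_mem _ (Subgroup.subset_closure ⟨v, rfl⟩)
      (Subgroup.subset_closure ⟨-v, rfl⟩)
  · rw [Unitary.mem_iff, star_neg, star_one, neg_mul_neg, one_mul]
    exact ⟨rfl, rfl⟩
  · exact neg_mem (one_mem _)

/-- the element `-1` -/
def nS (n : Type) [Fintype n] [DecidableEq n] [Nonempty n] (k : Type u) [Field k] [CharZero k] :
    SpinG n k := ⟨-1, neg_one_mem⟩

variable {m m' : Type} [Fintype m] [DecidableEq m]

lemma toLJ {J' : Matrix m m k} {u : Matrix n m k} {v : Matrix m n k} (huv : u * v = 1)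
    (hvu : v * u = 1) (h : uᵀ * (1 : Matrix n n k) * u = J') (g : IsoG (1 : Matrix n n k)) :
    ∃ x : IsoG J', isoHom J' x = v * isoHom 1 g * u := by
  subst h
  exact ⟨conjIso 1 u v huv hvu g, rfl⟩

lemma fromLJ {J' : Matrix m m k} {u : Matrix n m k} {v : Matrix m n k} (huv : u * v = 1)
    (hvu : v * u = 1) (h : uᵀ * (1 : Matrix n n k) * u = J') (x : IsoG J') :
    ∃ g : IsoG (1 : Matrix n n k), v * isoHom 1 g * u = isoHom J' x := by
  subst h
  exact ⟨(conjIso 1 u v huv hvu).symm x, by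
    rw [← conjIso_hom 1 u v huv hvu, MulEquiv.apply_symm_apply]⟩

end Spin

section Main

variable {k : Type u} [Field k] [IsAlgClosed k] [CharZero k]

theorem ccs_chart (h1 : ST_LEVF k) (h2 : ST_LEVC k) {n : Type} [Fintype n] [DecidableEq n]
    (e : ℕ) (w : Type) [Fintype w] [DecidableEq w] [Subsingleton w] (Jw : Matrix w w k)
    (hJ : IsForm 1 Jw) (hY : ∀ Y : Matrix w w k, Y.det = 1 → Y = 1)
    (u : Matrix n (Fin (e + 1) ⊕ (Fin (e + 1) ⊕ w)) k)
    (v : Matrix (Fin (e + 1) ⊕ (Fin (e + 1) ⊕ w)) n k) (huv : u * v = 1) (hvu : v * u = 1)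
    (hu : uᵀ * u = LJ (Fin (e + 1)) 1 Jw)
    (hreg : ∀ i j, (fun g : SpinG n k => isoHom 1 (rho n k g) i j) ∈ sAlg n k) :
    HasLChart (sAlg n k) ⊥ (zS n k) := by
  classical
  have : Infinite k := IsAlgClosed.instInfinite
  have hne : Nonempty n := by
    by_contra hn
    rw [not_nonempty_iff] at hn
    have h3 := congrFun (congrFun hvu (Sum.inl 0)) (Sum.inl 0)
    rw [Matrix.mul_apply, Finset.univ_eq_empty, Finset.sum_empty, Matrix.one_apply_eq] at h3
    exact zero_ne_one h3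
  have hd : IsSg (1 : k) false := Or.inr ⟨rfl, rfl⟩
  have hu' : uᵀ * (1 : Matrix n n k) * u = LJ (Fin (e + 1)) 1 Jw := by rw [Matrix.mul_one, hu]
  obtain ⟨φ, hφ1, hφ⟩ := st_ZFN u v Jw huv hvu hu
  set G := SpinG n k with hG
  set A := sAlg n k with hA
  set z : G → k := fun g => φ (g : Cln n k) with hz
  set y : G → Matrix (Fin (e + 1) ⊕ (Fin (e + 1) ⊕ w)) (Fin (e + 1) ⊕ (Fin (e + 1) ⊕ w)) k :=
    fun g => v * isoHom 1 (rho n k g) * u with hy
  have hzy : ∀ g, z g ^ 2 = (b11 (y g)).det := hφ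
  have hzA : z ∈ A := Algebra.subset_adjoin ⟨φ, rfl⟩
  have hc : ∀ {p q : Type} [Fintype p] [DecidableEq p] [Fintype q] [DecidableEq q]
      (M : Matrix p q k) (i : p) (j : q), (fun _ : G => M i j) ∈ A := fun M i j =>
    Subalgebra.algebraMap_mem A (M i j)
  have hyA : ∀ i j, (fun g => y g i j) ∈ A := by
    refine mul_mem_alg _ (fun g => v * isoHom 1 (rho n k g)) (fun _ => u) (fun i j => ?_)
      (fun i j => hc u i j)
    exact mul_mem_alg _ (fun _ => v) (fun g => isoHom 1 (rho n k g)) (fun i j => hc v i j)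
      hreg i j
  set q0 : G → k := fun g => z g * mn (b11 (y g)) with hq0
  have hmA : (fun g => mn (b11 (y g))) ∈ A :=
    det_mem_alg A (fun g => (b11 (y g)).submatrix Fin.succ Fin.succ) (fun i j => hyA _ _)
  have hq0A : q0 ∈ A := mul_mem hzA hmA
  have hz0 : ∀ g, q0 g ≠ 0 → z g ≠ 0 := fun g hg => left_ne_zero_of_mul hg
  have hm0 : ∀ g, q0 g ≠ 0 → mn (b11 (y g)) ≠ 0 := fun g hg => right_ne_zero_of_mul hg
  have hd0 : ∀ g, q0 g ≠ 0 → (b11 (y g)).det ≠ 0 := fun g hg => by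
    rw [← hzy]; exact pow_ne_zero _ (hz0 g hg)
  have hent : ∀ i j, (fun g : G => y g i j) ∈ RegU A q0 := fun i j => le_RegU A q0 (hyA i j)
  have hinv : ∀ i j, (fun g : G => (b11 (y g))⁻¹ i j) ∈ RegU A q0 :=
    nonsing_inv_mem_RegU (fun g => b11 (y g)) (fun i j => hent _ _) (fun g hg => hd0 g hg)
  have hcst : ∀ {p q : Type} (M : Matrix p q k) (i : p) (j : q),
      (fun _ : G => M i j) ∈ RegU A q0 := fun M i j =>
    Subalgebra.algebraMap_mem (RegU A q0) (M i j)
  have hC : ∀ i j, (fun g : G => lC (y g) i j) ∈ RegU A q0 :=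
    mul_mem_alg _ (fun g => b31 (y g)) (fun g => (b11 (y g))⁻¹) (fun i j => hent _ _) hinv
  have hAA : ∀ i j, (fun g : G => lA (y g) i j) ∈ RegU A q0 :=
    mul_mem_alg _ (fun g => b21 (y g)) (fun g => (b11 (y g))⁻¹) (fun i j => hent _ _) hinv
  have hB : ∀ i j, (fun g : G => mB (y g) i j) ∈ RegU A q0 :=
    mul_mem_alg _ (fun g => b12 (y g)) (fun g => (b11 (y g))ᵀ) (fun i j => hent _ _)
      (fun i j => hent _ _)
  have hD : ∀ i j, (fun g : G => mD (y g) i j) ∈ RegU A q0 := by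
    refine mul_mem_alg _ (fun g => b32 (y g) - lC (y g) * b12 (y g)) (fun g => (b11 (y g))ᵀ)
      (fun i j => ?_) (fun i j => hent _ _)
    exact sub_mem (hent _ _) (mul_mem_alg _ (fun g => lC (y g)) (fun g => b12 (y g)) hC
      (fun i j => hent _ _) i j)
  have hX : ∀ (M : G → Matrix w (Fin (e + 1)) k), (∀ i j, (fun g => M g i j) ∈ RegU A q0) →
      ∀ i j, (fun g => ((M g)ᵀ * Jw * M g) i j) ∈ RegU A q0 := by
    intro M hM
    exact mul_mem_alg _ (fun g => (M g)ᵀ * Jw) M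
      (mul_mem_alg _ (fun g => (M g)ᵀ) (fun _ => Jw) (fun i j => hM _ _) (hcst Jw)) hM
  have hKK : ∀ i j, (fun g : G => mK Jw (y g) i j) ∈ RegU A q0 := fun i j =>
    add_mem (hAA i j) ((RegU A q0).smul_mem (hX _ hC i j) _)
  have hKK' : ∀ i j, (fun g : G => mK' 1 Jw (y g) i j) ∈ RegU A q0 := fun i j =>
    add_mem (hB i j) ((RegU A q0).smul_mem (hX _ hD i j) _)
  have hneg : ∀ g : G, z (nS n k * g) = -z g ∧ y (nS n k * g) = y g := by
    intro g
    have hk : rho n k (nS n k) = 1 := by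
      rw [← MonoidHom.mem_ker, rho_ker]
      exact Or.inr rfl
    refine ⟨?_, ?_⟩
    · show φ (((nS n k * g : G)) : Cln n k) = _
      have : ((nS n k * g : G) : Cln n k) = -(g : Cln n k) := by
        show (-1 : Cln n k) * g = -(g : Cln n k)
        rw [neg_one_mul]
      rw [this, map_neg]
    · show v * isoHom 1 (rho n k (nS n k * g)) * u = _
      rw [map_mul, hk, one_mul]
  refine ⟨NI (e + 1) false w, inferInstance, inferInstance, ⟨{
    hH := bot_le
    q0 := q0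
    q0_mem := hq0A
    q0_ne := ?_
    t := fun g => tz (z g) Jw (y g)
    treg := ?_
    sep := ?_
    dom := ?_
    inv := ?_
    equiv := ?_ }⟩⟩
  · intro h
    have h3 := congrFun h 1
    have h4 : b11 (y 1) = 1 := by
      show b11 (v * isoHom 1 (rho n k 1) * u) = 1
      rw [map_one, map_one, Matrix.mul_one, hvu, ← mk3_one]
      rfl
    have h5 : z 1 = 1 := hφ1
    have h6 : mn (b11 (y 1)) = 1 := by
      rw [h4]
      unfold mn
      have : (1 : Matrix (Fin (e + 1)) (Fin (e + 1)) k).submatrix Fin.succ Fin.succ = 1 :=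
        Matrix.submatrix_one _ (Fin.succ_injective _)
      rw [this, Matrix.det_one]
    have h7 : z 1 * mn (b11 (y 1)) = 0 := h3
    rw [h5, h6, mul_one] at h7
    exact one_ne_zero h7
  · rintro (p | p | p | p | p)
    · exact hC _ _
    · exact hKK _ _
    · exact hD _ _
    · exact hKK' _ _
    · by_cases hp : p = (0, 0)
      · have : (fun g => tz (z g) Jw (y g) (Sum.inr (Sum.inr (Sum.inr (Sum.inr p))))) = z := by
          funext g
          show (if p = (0, 0) then z g else b11 (y g) p.1 p.2) = z g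
          rw [if_pos hp]
        rw [this]
        exact le_RegU A q0 hzA
      · have : (fun g => tz (z g) Jw (y g) (Sum.inr (Sum.inr (Sum.inr (Sum.inr p))))) =
            fun g => y g (Sum.inl p.1) (Sum.inl p.2) := by
          funext g
          show (if p = (0, 0) then z g else b11 (y g) p.1 p.2) = b11 (y g) p.1 p.2
          rw [if_neg hp]
        rw [this]
        exact hent _ _
  · intro g g' hg hg' htt
    obtain ⟨hζ, htt'⟩ := tt_of_tz (hzy g) (hzy g') (hm0 g hg) htt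
    obtain ⟨x, hx⟩ := toLJ huv hvu hu' (rho n k g)
    obtain ⟨x', hx'⟩ := toLJ huv hvu hu' (rho n k g')
    have h3 := tt_inj h1 hd hJ hY x x' (by rw [hx]; exact hd0 g hg) (by rw [hx']; exact hd0 g' hg')
      (by rw [hx, hx']; exact htt')
    rw [hx, hx'] at h3
    have h4 : isoHom 1 (rho n k g') = isoHom 1 (rho n k g) := by
      have h5 : ∀ R : Matrix n n k, u * (v * R * u) * v = R := by
        intro R
        calc u * (v * R * u) * v = (u * v) * R * (u * v) := by simp only [Matrix.mul_assoc]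
          _ = R := by rw [huv, Matrix.one_mul, Matrix.mul_one]
      rw [← h5 (isoHom 1 (rho n k g')), h3, h5]
    have h5 : rho n k g' = rho n k g := Subtype.ext (Subtype.ext h4)
    have h6 : g⁻¹ * g' ∈ zS n k := by
      rw [← rho_ker, MonoidHom.mem_ker, map_mul, map_inv, h5, inv_mul_cancel]
    have h7 : (g' : Cln n k) = (g : Cln n k) * ((g⁻¹ * g' : G) : Cln n k) := by
      have : g' = g * (g⁻¹ * g') := by rw [← mul_assoc, mul_inv_cancel, one_mul]
      exact congrArg (fun x : G => (x : Cln n k)) this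
    refine ⟨1, Subgroup.mem_bot.2 rfl, ?_⟩
    rw [mul_one]
    rcases h6 with h6 | h6
    · rw [h6, mul_one] at h7
      exact Subtype.ext h7
    · exfalso
      rw [h6, mul_neg, mul_one] at h7
      have h8 : z g' = -z g := by
        show φ (g' : Cln n k) = -φ (g : Cln n k)
        rw [h7, map_neg]
      rw [← hζ] at h8
      have h9 : (2 : k) * z g = 0 := by linear_combination h8
      exact hz0 g hg ((mul_eq_zero.1 h9).resolve_left two_ne_zero)
  · intro P hP
    set ι0 : Fin (e + 1) × Fin (e + 1) → NI (e + 1) false w :=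
      fun p => Sum.inr (Sum.inr (Sum.inr (Sum.inr p))) with hι0
    have hι0' : Function.Injective ι0 := fun a b hab => by
      simpa [hι0] using hab
    set ι1 : Fin e × Fin e → NI (e + 1) false w := fun p => ι0 (p.1.succ, p.2.succ) with hι1
    have hι1' : Function.Injective ι1 := fun a b hab => by
      have h3 := hι0' hab
      exact Prod.ext (Fin.succ_injective _ (congrArg Prod.fst h3))
        (Fin.succ_injective _ (congrArg Prod.snd h3))
    set Q : MvPolynomial (NI (e + 1) false w) k :=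
      P * (X (ι0 (0, 0)) * rename ι1 (Matrix.mvPolynomialX (Fin e) (Fin e) k).det) with hQ
    have hQ0 : Q ≠ 0 := by
      refine mul_ne_zero hP (mul_ne_zero (X_ne_zero _) ?_)
      intro h0
      apply Matrix.det_mvPolynomialX_ne_zero (Fin e) k
      apply rename_injective ι1 hι1'
      rw [h0, map_zero]
    obtain ⟨v0, hv⟩ : ∃ v0, eval v0 Q ≠ 0 := by
      by_contra hcon
      push Not at hcon
      exact hQ0 (MvPolynomial.funext fun x => by rw [hcon x, map_zero])
    rw [hQ, map_mul, map_mul, eval_X] at hv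
    have hv1 := left_ne_zero_of_mul hv
    have hv2 := left_ne_zero_of_mul (right_ne_zero_of_mul hv)
    have hv3 := right_ne_zero_of_mul (right_ne_zero_of_mul hv)
    set ζ := v0 (ι0 (0, 0)) with hζ
    set α0 : Matrix (Fin (e + 1)) (Fin (e + 1)) k := Matrix.of fun i j => v0 (ι0 (i, j)) with hα0
    have hmn : mn α0 ≠ 0 := by
      rw [eval_rename] at hv3
      have h5 : eval (v0 ∘ ι1) (Matrix.mvPolynomialX (Fin e) (Fin e) k).det = mn α0 := by
        unfold mn
        rw [RingHom.map_det]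
        congr 1
        ext i j
        simp [Matrix.mvPolynomialX, hα0, hι1]
      rwa [h5] at hv3
    set v1 : NI (e + 1) false w → k :=
      Function.update v0 (ι0 (0, 0)) ((ζ ^ 2 - rs α0) / mn α0) with hv1def
    set α1 : Matrix (Fin (e + 1)) (Fin (e + 1)) k := Matrix.of fun i j => v1 (ι0 (i, j)) with hα1
    have hoff : ∀ p : Fin (e + 1) × Fin (e + 1), p ≠ (0, 0) → α1 p.1 p.2 = α0 p.1 p.2 := by
      intro p hp
      show v1 (ι0 p) = v0 (ι0 p)
      rw [hv1def, Function.update_of_ne (fun hh => hp (hι0' hh))]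
    have hα100 : α1 0 0 = (ζ ^ 2 - rs α0) / mn α0 := by
      show v1 (ι0 (0, 0)) = _
      rw [hv1def, Function.update_self]
    have hdet1 : α1.det = ζ ^ 2 := by
      rw [det_split, mn_congr hoff, rs_congr hoff, hα100, div_mul_cancel₀ _ hmn, sub_add_cancel]
    obtain ⟨x, hxt, hxb⟩ := tt_surj h2 hd hJ v1 (by
      have : α1.det ≠ 0 := by rw [hdet1]; exact pow_ne_zero _ hv2
      exact this)
    obtain ⟨B, hB'⟩ := fromLJ huv hvu hu' x
    obtain ⟨g, hg⟩ := rho_surjective B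
    have hyx : y g = isoHom _ x := by
      show v * isoHom 1 (rho n k g) * u = _
      rw [hg, hB']
    have hzg : z g ^ 2 = ζ ^ 2 := by
      rw [hzy, hyx, hxb]
      exact hdet1
    obtain ⟨g', hzg', hyg'⟩ : ∃ g' : G, z g' = ζ ∧ y g' = isoHom _ x := by
      rcases sq_eq_sq_iff_eq_or_eq_neg.1 hzg with h3 | h3
      · exact ⟨g, h3, hyx⟩
      · exact ⟨nS n k * g, by rw [(hneg g).1, h3, neg_neg], by rw [(hneg g).2, hyx]⟩
    refine ⟨g', ?_, ?_⟩
    · show z g' * mn (b11 (y g')) ≠ 0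
      rw [hzg', hyg', hxb]
      refine mul_ne_zero hv2 ?_
      have : mn α1 ≠ 0 := by rw [mn_congr hoff]; exact hmn
      exact this
    · show eval (tz (z g') Jw (y g')) P ≠ 0
      have h3 : tz (z g') Jw (y g') = v0 := by
        refine tz_of_tt (v' := v1) (by rw [hyg']; exact hxt) (by rw [hzg']) ?_
        intro j hj
        rw [hv1def, Function.update_of_ne hj]
      rw [h3]
      exact hv1
  · intro h hh g _ j
    rw [Subgroup.mem_bot.1 hh, mul_one]
  · intro h hh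
    obtain ⟨c, hc0, hch⟩ : ∃ c : k, c ≠ 0 ∧ (h : Cln n k) = c • (1 : Cln n k) := by
      rcases hh with hh | hh
      · exact ⟨1, one_ne_zero, by rw [one_smul, hh]⟩
      · exact ⟨-1, neg_ne_zero.2 one_ne_zero, by rw [neg_one_smul, hh]⟩
    have hk : rho n k h = 1 := by
      rw [← MonoidHom.mem_ker, rho_ker]
      exact hh
    have hyh : ∀ g : G, y (g * h) = y g := by
      intro g
      show v * isoHom 1 (rho n k (g * h)) * u = _
      rw [map_mul, hk, mul_one]
    have hzh : ∀ g : G, z (g * h) = c * z g := by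
      intro g
      show φ ((g : Cln n k) * (h : Cln n k)) = c * φ (g : Cln n k)
      rw [hch, mul_smul_comm, mul_one, map_smul, smul_eq_mul]
    refine ⟨Matrix.diagonal (fun j => if j = Sum.inr (Sum.inr (Sum.inr (Sum.inr (0, 0)))) then c
      else 1), fun g hg => ⟨?_, fun j => ?_⟩⟩
    · show z (g * h) * mn (b11 (y (g * h))) ≠ 0
      rw [hyh, hzh]
      exact mul_ne_zero (mul_ne_zero hc0 (hz0 g hg)) (hm0 g hg)
    · have hsum : ∀ (f : NI (e + 1) false w → k) (j : NI (e + 1) false w),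
          ∑ l, Matrix.diagonal f j l * tz (z g) Jw (y g) l = f j * tz (z g) Jw (y g) j := by
        intro f j
        rw [Finset.sum_eq_single j]
        · rw [Matrix.diagonal_apply_eq]
        · intro l _ hl
          rw [Matrix.diagonal_apply_ne _ (Ne.symm hl), zero_mul]
        · intro hj; exact absurd (Finset.mem_univ _) hj
      rw [hsum]
      show tz (z (g * h)) Jw (y (g * h)) j = _
      rw [hyh, hzh]
      rcases j with p | p | p | p | p
      · rw [if_neg (by simp), one_mul]; rfl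
      · rw [if_neg (by simp), one_mul]; rfl
      · rw [if_neg (by simp), one_mul]; rfl
      · rw [if_neg (by simp), one_mul]; rfl
      · show (if p = (0, 0) then c * z g else b11 (y g) p.1 p.2) =
          _ * (if p = (0, 0) then z g else b11 (y g) p.1 p.2)
        by_cases hp : p = (0, 0)
        · rw [if_pos hp, if_pos hp, if_pos (by rw [hp])]
        · rw [if_neg hp, if_neg hp, if_neg (by simpa using hp), one_mul]

/-- CCS: the chart of the Spin group for the trivial group, equivariant for `{1, -1}`. -/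
theorem st_CCS (h1 : ST_LEVF k) (h2 : ST_LEVC k) (h3 : ST_EQV k) (n : Type) [Fintype n]
    [DecidableEq n] (hn : 2 ≤ Fintype.card n)
    (hreg : ∀ i j, (fun g : SpinG n k => isoHom 1 (rho n k g) i j) ∈ sAlg n k) :
    HasLChart (sAlg n k) ⊥ (zS n k) := by
  obtain ⟨e, he⟩ : ∃ e, Fintype.card n / 2 = e + 1 :=
    ⟨Fintype.card n / 2 - 1, by omega⟩
  set w := Fintype.card n % 2 with hw
  have hcard : Fintype.card n = 2 * (e + 1) + w := by
    rw [← he]; exact (Nat.div_add_mod _ 2).symm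
  have hw2 : w < 2 := Nat.mod_lt _ (by norm_num)
  have hsub : Subsingleton (Fin w) := by
    refine ⟨fun a b => ?_⟩
    apply Fin.ext
    have := a.2
    have := b.2
    omega
  have hJw : IsForm 1 (1 : Matrix (Fin w) (Fin w) k) :=
    ⟨Or.inl rfl, by rw [one_smul, Matrix.transpose_one], by rw [Matrix.det_one]; exact one_ne_zero⟩
  have hY : ∀ Y : Matrix (Fin w) (Fin w) k, Y.det = 1 → Y = 1 := by
    intro Y hYd
    interval_cases hw' : w
    · exact Subsingleton.elim _ _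
    · ext i j
      fin_cases i
      fin_cases j
      rw [Matrix.det_fin_one] at hYd
      simpa using hYd
  have hLJ := LJ_isForm hJw (e + 1)
  have hc2 : Fintype.card n = Fintype.card (Fin (e + 1) ⊕ (Fin (e + 1) ⊕ Fin w)) := by
    simp only [Fintype.card_sum, Fintype.card_fin]
    omega
  have hJ1 : IsForm 1 (1 : Matrix n n k) :=
    ⟨Or.inl rfl, by rw [one_smul, Matrix.transpose_one], by rw [Matrix.det_one]; exact one_ne_zero⟩
  obtain ⟨u, hu⟩ := h3 n (Fin (e + 1) ⊕ (Fin (e + 1) ⊕ Fin w)) 1 1 (LJ (Fin (e + 1)) 1 1)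
    hJ1 hLJ hc2
  rw [Matrix.mul_one] at hu
  set v : Matrix (Fin (e + 1) ⊕ (Fin (e + 1) ⊕ Fin w)) n k :=
    (LJ (Fin (e + 1)) 1 (1 : Matrix (Fin w) (Fin w) k))⁻¹ * uᵀ with hv
  have hvu : v * u = 1 := by
    rw [hv, Matrix.mul_assoc, hu, Matrix.nonsing_inv_mul _ (isUnit_iff_ne_zero.2 hLJ.det_ne)]
  have huv : u * v = 1 := (Matrix.mul_eq_one_comm_of_equiv (Fintype.equivOfCardEq hc2)).2 hvu
  exact ccs_chart h1 h2 e (Fin w) 1 hJw hY u v huv hvu hu hreg

end Main

end Pool.Agent.Helper78.SPN
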