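import Pool.Agent.Helper78.SPN.CCS
import Pool.Agent.Helper67.SPN.Reg
import Pool.Agent.Helper19.CG.LEVF
import Pool.Agent.Helper19.CG.LEVC
import Pool.Agent.Helper48.CG.EQV

/-!
# Row CCS (MP_005e41): final form
-/

set_option autoImplicit false

namespace Pool.Agent.Helper78.SPN

open Matrix Pool.Agent.Helper14.RG Pool.Agent.Helper97.CG Pool.Agent.Helper67.SPN

universe u

/-- The statement ST_CCS. -/
theorem ccs_all (k : Type u) [Field k] [IsAlgClosed k] [CharZero k] (n : ℕ) (hn : 5 ≤ n)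
    (Z : Subgroup (SpinG (Fin n) k)) (hZ : ∀ z, z ∈ Z ↔ (z : Cln (Fin n) k) = 1 ∨
      (z : Cln (Fin n) k) = -1) : HasLChart (sAlg (Fin n) k) ⊥ Z := by
  have h : Z = zS (Fin n) k := by
    ext z
    rw [hZ, mem_zS]
  rw [h]
  exact st_CCS Pool.Agent.Helper19.CG.st_LEVF Pool.Agent.Helper19.CG.st_LEVC
    (Pool.Agent.Helper97.CG.st_EQV k) (Fin n) (by rw [Fintype.card_fin]; omega) rho_entry_mem

end Pool.Agent.Helper78.SPN
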