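import Pool.Agent.Helper78.SPN.CCSF
import Pool.Agent.Helper72.SPN.IRRS

/-!
# Row CCS (MP_005e41): the chart of the Spin group for the trivial group, larger central subgroups
-/

set_option autoImplicit false
set_option linter.unusedSectionVars false

namespace Pool.Agent.Helper78.SPN

open MvPolynomial Matrix Pool.Agent.Helper14.RG Pool.Agent.Helper97.CG Pool.Agent.Helper79.CG
  Pool.Agent.Helper67.SPN

universe u

section Main

variable {k : Type u} [Field k] [IsAlgClosed k] [CharZero k]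

theorem ccz_chart (h1 : ST_LEVF k) (h2 : ST_LEVC k) {n : Type} [Fintype n] [DecidableEq n]
    (e : ℕ) (w : Type) [Fintype w] [DecidableEq w] [Subsingleton w] (Jw : Matrix w w k)
    (hJ : IsForm 1 Jw) (hY : ∀ Y : Matrix w w k, Y.det = 1 → Y = 1)
    (u : Matrix n (Fin (e + 1) ⊕ (Fin (e + 1) ⊕ w)) k)
    (v : Matrix (Fin (e + 1) ⊕ (Fin (e + 1) ⊕ w)) n k) (huv : u * v = 1) (hvu : v * u = 1)
    (hu : uᵀ * u = LJ (Fin (e + 1)) 1 Jw)
    (hreg : ∀ i j, (fun g : SpinG n k => isoHom 1 (rho n k g) i j) ∈ sAlg n k)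
    (hirr : Irr (sAlg n k)) (hrst : RStable (sAlg n k)) (Z : Subgroup (SpinG n k))
    (hZ : ∀ h ∈ Z, isoHom 1 (rho n k h) = 1 ∨ isoHom 1 (rho n k h) = -1) :
    HasLChart (sAlg n k) ⊥ Z := by
  classical
  have : Infinite k := IsAlgClosed.instInfinite
  have hne : Nonempty n := by
    by_contra hn
    rw [not_nonempty_iff] at hn
    have h3 := congrFun (congrFun hvu (Sum.inl 0)) (Sum.inl 0)
    rw [Matrix.mul_apply, Finset.univ_eq_empty, Finset.sum_empty, Matrix.one_apply_eq] at h3
    exact zero_ne_one h3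
  have hd : IsSg (1 : k) false := Or.inr ⟨rfl, rfl⟩
  have hu' : uᵀ * (1 : Matrix n n k) * u = LJ (Fin (e + 1)) 1 Jw := by rw [Matrix.mul_one, hu]
  obtain ⟨φ, hφ1, hφ⟩ := st_ZFN u v Jw huv hvu hu
  set G := SpinG n k with hG
  set A := sAlg n k with hA
  set z : G → k := fun g => φ (g : Cln n k) with hz
  set y : G → Matrix (Fin (e + 1) ⊕ (Fin (e + 1) ⊕ w)) (Fin (e + 1) ⊕ (Fin (e + 1) ⊕ w)) k :=
    fun g => v * isoHom 1 (rho n k g) * u with hy
  have hzy : ∀ g, z g ^ 2 = (b11 (y g)).det := hφ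
  have hzA : z ∈ A := Algebra.subset_adjoin ⟨φ, rfl⟩
  have hc : ∀ {p q : Type} [Fintype p] [DecidableEq p] [Fintype q] [DecidableEq q]
      (M : Matrix p q k) (i : p) (j : q), (fun _ : G => M i j) ∈ A := fun M i j =>
    Subalgebra.algebraMap_mem A (M i j)
  have hyA : ∀ i j, (fun g => y g i j) ∈ A := by
    refine mul_mem_alg _ (fun g => v * isoHom 1 (rho n k g)) (fun _ => u) (fun i j => ?_)
      (fun i j => hc u i j)
    exact mul_mem_alg _ (fun _ => v) (fun g => isoHom 1 (rho n k g)) (fun i j => hc v i j)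
      hreg i j
  set q0 : G → k := fun g => z g * mn (b11 (y g)) with hq0
  have hmA : (fun g => mn (b11 (y g))) ∈ A :=
    det_mem_alg A (fun g => (b11 (y g)).submatrix Fin.succ Fin.succ) (fun i j => hyA _ _)
  have hq0A : q0 ∈ A := mul_mem hzA hmA
  have hz0 : ∀ g, q0 g ≠ 0 → z g ≠ 0 := fun g hg => left_ne_zero_of_mul hg
  have hm0 : ∀ g, q0 g ≠ 0 → mn (b11 (y g)) ≠ 0 := fun g hg => right_ne_zero_of_mul hg
  have hd0 : ∀ g, q0 g ≠ 0 → (b11 (y g)).det ≠ 0 := fun g hg => by
    rw [← hzy]; exact pow_ne_zero _ (hz0 g hg)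
  have hent : ∀ i j, (fun g : G => y g i j) ∈ RegU A q0 := fun i j => le_RegU A q0 (hyA i j)
  have hinv : ∀ i j, (fun g : G => (b11 (y g))⁻¹ i j) ∈ RegU A q0 :=
    nonsing_inv_mem_RegU (fun g => b11 (y g)) (fun i j => hent _ _) (fun g hg => hd0 g hg)
  have hcst : ∀ {p q : Type} (M : Matrix p q k) (i : p) (j : q),
      (fun _ : G => M i j) ∈ RegU A q0 := fun M i j =>
    Subalgebra.algebraMap_mem (RegU A q0) (M i j)
  have hC : ∀ i j, (fun g : G => lC (y g) i j) ∈ RegU A q0 :=
    mul_mem_alg _ (fun g => b31 (y g)) (fun g => (b11 (y g))⁻¹) (fun i j => hent _ _) hinv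
  have hAA : ∀ i j, (fun g : G => lA (y g) i j) ∈ RegU A q0 :=
    mul_mem_alg _ (fun g => b21 (y g)) (fun g => (b11 (y g))⁻¹) (fun i j => hent _ _) hinv
  have hB : ∀ i j, (fun g : G => mB (y g) i j) ∈ RegU A q0 :=
    mul_mem_alg _ (fun g => b12 (y g)) (fun g => (b11 (y g))ᵀ) (fun i j => hent _ _)
      (fun i j => hent _ _)
  have hD : ∀ i j, (fun g : G => mD (y g) i j) ∈ RegU A q0 := by
    refine mul_mem_alg _ (fun g => b32 (y g) - lC (y g) * b12 (y g)) (fun g => (b11 (y g))ᵀ)
      (fun i j => ?_) (fun i j => hent _ _)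
    exact sub_mem (hent _ _) (mul_mem_alg _ (fun g => lC (y g)) (fun g => b12 (y g)) hC
      (fun i j => hent _ _) i j)
  have hX : ∀ (M : G → Matrix w (Fin (e + 1)) k), (∀ i j, (fun g => M g i j) ∈ RegU A q0) →
      ∀ i j, (fun g => ((M g)ᵀ * Jw * M g) i j) ∈ RegU A q0 := by
    intro M hM
    exact mul_mem_alg _ (fun g => (M g)ᵀ * Jw) M
      (mul_mem_alg _ (fun g => (M g)ᵀ) (fun _ => Jw) (fun i j => hM _ _) (hcst Jw)) hM
  have hKK : ∀ i j, (fun g : G => mK Jw (y g) i j) ∈ RegU A q0 := fun i j =>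
    add_mem (hAA i j) ((RegU A q0).smul_mem (hX _ hC i j) _)
  have hKK' : ∀ i j, (fun g : G => mK' 1 Jw (y g) i j) ∈ RegU A q0 := fun i j =>
    add_mem (hB i j) ((RegU A q0).smul_mem (hX _ hD i j) _)
  have hneg : ∀ g : G, z (nS n k * g) = -z g ∧ y (nS n k * g) = y g := by
    intro g
    have hk : rho n k (nS n k) = 1 := by
      rw [← MonoidHom.mem_ker, rho_ker]
      exact Or.inr rfl
    refine ⟨?_, ?_⟩
    · show φ (((nS n k * g : G)) : Cln n k) = _
      have : ((nS n k * g : G) : Cln n k) = -(g : Cln n k) := by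
        show (-1 : Cln n k) * g = -(g : Cln n k)
        rw [neg_one_mul]
      rw [this, map_neg]
    · show v * isoHom 1 (rho n k (nS n k * g)) * u = _
      rw [map_mul, hk, one_mul]
  refine ⟨NI (e + 1) false w, inferInstance, inferInstance, ⟨{
    hH := bot_le
    q0 := q0
    q0_mem := hq0A
    q0_ne := ?_
    t := fun g => tz (z g) Jw (y g)
    treg := ?_
    sep := ?_
    dom := ?_
    inv := ?_
    equiv := ?_ }⟩⟩
  · intro h
    have h3 := congrFun h 1
    have h4 : b11 (y 1) = 1 := by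
      show b11 (v * isoHom 1 (rho n k 1) * u) = 1
      rw [map_one, map_one, Matrix.mul_one, hvu, ← mk3_one]
      rfl
    have h5 : z 1 = 1 := hφ1
    have h6 : mn (b11 (y 1)) = 1 := by
      rw [h4]
      unfold mn
      have : (1 : Matrix (Fin (e + 1)) (Fin (e + 1)) k).submatrix Fin.succ Fin.succ = 1 :=
        Matrix.submatrix_one _ (Fin.succ_injective _)
      rw [this, Matrix.det_one]
    have h7 : z 1 * mn (b11 (y 1)) = 0 := h3
    rw [h5, h6, mul_one] at h7
    exact one_ne_zero h7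
  · rintro (p | p | p | p | p)
    · exact hC _ _
    · exact hKK _ _
    · exact hD _ _
    · exact hKK' _ _
    · by_cases hp : p = (0, 0)
      · have : (fun g => tz (z g) Jw (y g) (Sum.inr (Sum.inr (Sum.inr (Sum.inr p))))) = z := by
          funext g
          show (if p = (0, 0) then z g else b11 (y g) p.1 p.2) = z g
          rw [if_pos hp]
        rw [this]
        exact le_RegU A q0 hzA
      · have : (fun g => tz (z g) Jw (y g) (Sum.inr (Sum.inr (Sum.inr (Sum.inr p))))) =
            fun g => y g (Sum.inl p.1) (Sum.inl p.2) := by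
          funext g
          show (if p = (0, 0) then z g else b11 (y g) p.1 p.2) = b11 (y g) p.1 p.2
          rw [if_neg hp]
        rw [this]
        exact hent _ _
  · intro g g' hg hg' htt
    obtain ⟨hζ, htt'⟩ := tt_of_tz (hzy g) (hzy g') (hm0 g hg) htt
    obtain ⟨x, hx⟩ := toLJ huv hvu hu' (rho n k g)
    obtain ⟨x', hx'⟩ := toLJ huv hvu hu' (rho n k g')
    have h3 := tt_inj h1 hd hJ hY x x' (by rw [hx]; exact hd0 g hg) (by rw [hx']; exact hd0 g' hg')
      (by rw [hx, hx']; exact htt')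
    rw [hx, hx'] at h3
    have h4 : isoHom 1 (rho n k g') = isoHom 1 (rho n k g) := by
      have h5 : ∀ R : Matrix n n k, u * (v * R * u) * v = R := by
        intro R
        calc u * (v * R * u) * v = (u * v) * R * (u * v) := by simp only [Matrix.mul_assoc]
          _ = R := by rw [huv, Matrix.one_mul, Matrix.mul_one]
      rw [← h5 (isoHom 1 (rho n k g')), h3, h5]
    have h5 : rho n k g' = rho n k g := Subtype.ext (Subtype.ext h4)
    have h6 : g⁻¹ * g' ∈ zS n k := by
      rw [← rho_ker, MonoidHom.mem_ker, map_mul, map_inv, h5, inv_mul_cancel]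
    have h7 : (g' : Cln n k) = (g : Cln n k) * ((g⁻¹ * g' : G) : Cln n k) := by
      have : g' = g * (g⁻¹ * g') := by rw [← mul_assoc, mul_inv_cancel, one_mul]
      exact congrArg (fun x : G => (x : Cln n k)) this
    refine ⟨1, Subgroup.mem_bot.2 rfl, ?_⟩
    rw [mul_one]
    rcases h6 with h6 | h6
    · rw [h6, mul_one] at h7
      exact Subtype.ext h7
    · exfalso
      rw [h6, mul_neg, mul_one] at h7
      have h8 : z g' = -z g := by
        show φ (g' : Cln n k) = -φ (g : Cln n k)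
        rw [h7, map_neg]
      rw [← hζ] at h8
      have h9 : (2 : k) * z g = 0 := by linear_combination h8
      exact hz0 g hg ((mul_eq_zero.1 h9).resolve_left two_ne_zero)
  · intro P hP
    set ι0 : Fin (e + 1) × Fin (e + 1) → NI (e + 1) false w :=
      fun p => Sum.inr (Sum.inr (Sum.inr (Sum.inr p))) with hι0
    have hι0' : Function.Injective ι0 := fun a b hab => by
      simpa [hι0] using hab
    set ι1 : Fin e × Fin e → NI (e + 1) false w := fun p => ι0 (p.1.succ, p.2.succ) with hι1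
    have hι1' : Function.Injective ι1 := fun a b hab => by
      have h3 := hι0' hab
      exact Prod.ext (Fin.succ_injective _ (congrArg Prod.fst h3))
        (Fin.succ_injective _ (congrArg Prod.snd h3))
    set Q : MvPolynomial (NI (e + 1) false w) k :=
      P * (X (ι0 (0, 0)) * rename ι1 (Matrix.mvPolynomialX (Fin e) (Fin e) k).det) with hQ
    have hQ0 : Q ≠ 0 := by
      refine mul_ne_zero hP (mul_ne_zero (X_ne_zero _) ?_)
      intro h0
      apply Matrix.det_mvPolynomialX_ne_zero (Fin e) k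
      apply rename_injective ι1 hι1'
      rw [h0, map_zero]
    obtain ⟨v0, hv⟩ : ∃ v0, eval v0 Q ≠ 0 := by
      by_contra hcon
      push Not at hcon
      exact hQ0 (MvPolynomial.funext fun x => by rw [hcon x, map_zero])
    rw [hQ, map_mul, map_mul, eval_X] at hv
    have hv1 := left_ne_zero_of_mul hv
    have hv2 := left_ne_zero_of_mul (right_ne_zero_of_mul hv)
    have hv3 := right_ne_zero_of_mul (right_ne_zero_of_mul hv)
    set ζ := v0 (ι0 (0, 0)) with hζ
    set α0 : Matrix (Fin (e + 1)) (Fin (e + 1)) k := Matrix.of fun i j => v0 (ι0 (i, j)) with hα0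
    have hmn : mn α0 ≠ 0 := by
      rw [eval_rename] at hv3
      have h5 : eval (v0 ∘ ι1) (Matrix.mvPolynomialX (Fin e) (Fin e) k).det = mn α0 := by
        unfold mn
        rw [RingHom.map_det]
        congr 1
        ext i j
        simp [Matrix.mvPolynomialX, hα0, hι1]
      rwa [h5] at hv3
    set v1 : NI (e + 1) false w → k :=
      Function.update v0 (ι0 (0, 0)) ((ζ ^ 2 - rs α0) / mn α0) with hv1def
    set α1 : Matrix (Fin (e + 1)) (Fin (e + 1)) k := Matrix.of fun i j => v1 (ι0 (i, j)) with hα1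
    have hoff : ∀ p : Fin (e + 1) × Fin (e + 1), p ≠ (0, 0) → α1 p.1 p.2 = α0 p.1 p.2 := by
      intro p hp
      show v1 (ι0 p) = v0 (ι0 p)
      rw [hv1def, Function.update_of_ne (fun hh => hp (hι0' hh))]
    have hα100 : α1 0 0 = (ζ ^ 2 - rs α0) / mn α0 := by
      show v1 (ι0 (0, 0)) = _
      rw [hv1def, Function.update_self]
    have hdet1 : α1.det = ζ ^ 2 := by
      rw [det_split, mn_congr hoff, rs_congr hoff, hα100, div_mul_cancel₀ _ hmn, sub_add_cancel]
    obtain ⟨x, hxt, hxb⟩ := tt_surj h2 hd hJ v1 (by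
      have : α1.det ≠ 0 := by rw [hdet1]; exact pow_ne_zero _ hv2
      exact this)
    obtain ⟨B, hB'⟩ := fromLJ huv hvu hu' x
    obtain ⟨g, hg⟩ := rho_surjective B
    have hyx : y g = isoHom _ x := by
      show v * isoHom 1 (rho n k g) * u = _
      rw [hg, hB']
    have hzg : z g ^ 2 = ζ ^ 2 := by
      rw [hzy, hyx, hxb]
      exact hdet1
    obtain ⟨g', hzg', hyg'⟩ : ∃ g' : G, z g' = ζ ∧ y g' = isoHom _ x := by
      rcases sq_eq_sq_iff_eq_or_eq_neg.1 hzg with h3 | h3
      · exact ⟨g, h3, hyx⟩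
      · exact ⟨nS n k * g, by rw [(hneg g).1, h3, neg_neg], by rw [(hneg g).2, hyx]⟩
    refine ⟨g', ?_, ?_⟩
    · show z g' * mn (b11 (y g')) ≠ 0
      rw [hzg', hyg', hxb]
      refine mul_ne_zero hv2 ?_
      have : mn α1 ≠ 0 := by rw [mn_congr hoff]; exact hmn
      exact this
    · show eval (tz (z g') Jw (y g')) P ≠ 0
      have h3 : tz (z g') Jw (y g') = v0 := by
        refine tz_of_tt (v' := v1) (by rw [hyg']; exact hxt) (by rw [hzg']) ?_
        intro j hj
        rw [hv1def, Function.update_of_ne hj]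
      rw [h3]
      exact hv1
  · intro h hh g _ j
    rw [Subgroup.mem_bot.1 hh, mul_one]
  · intro h hh
    obtain ⟨a, haa, hρh⟩ : ∃ a : k, a * a = 1 ∧ isoHom 1 (rho n k h) = a • (1 : Matrix n n k) := by
      rcases hZ h hh with h3 | h3
      · exact ⟨1, one_mul 1, by rw [h3, one_smul]⟩
      · exact ⟨-1, by rw [neg_mul_neg, one_mul], by rw [h3, neg_one_smul]⟩
    have ha0 : a ≠ 0 := by
      rintro rfl
      rw [mul_zero] at haa
      exact zero_ne_one haa
    have hyh : ∀ g : G, y (g * h) = a • y g := by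
      intro g
      show v * isoHom 1 (rho n k (g * h)) * u = a • (v * isoHom 1 (rho n k g) * u)
      rw [map_mul, map_mul, hρh, Matrix.mul_smul, Matrix.mul_one, Matrix.mul_smul,
        Matrix.smul_mul]
    obtain ⟨c0, hc0⟩ : ∃ c0 : k, c0 ^ 2 = a ^ (e + 1) :=
      IsAlgClosed.exists_pow_nat_eq (a ^ (e + 1)) (by norm_num)
    have hzz : ∀ g : G, z (g * h) ^ 2 = c0 ^ 2 * z g ^ 2 := by
      intro g
      have h3 : b11 (a • y g) = a • b11 (y g) := rfl
      rw [hzy, hzy, hyh, h3, Matrix.det_smul, Fintype.card_fin, hc0]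
    have hzhA : (fun g : G => z (g * h)) ∈ A := hrst h z hzA
    obtain ⟨c, hc0', hzh⟩ : ∃ c : k, c ≠ 0 ∧ ∀ g : G, z (g * h) = c * z g := by
      have hcne : c0 ≠ 0 := by
        rintro rfl
        have h3 : a ^ (e + 1) = 0 := by rw [← hc0]; ring
        exact ha0 (pow_eq_zero_iff (Nat.succ_ne_zero e) |>.1 h3)
      have hm1 : (fun g : G => z (g * h) - c0 * z g) ∈ A :=
        sub_mem hzhA (A.smul_mem hzA c0)
      have hm2 : (fun g : G => z (g * h) + c0 * z g) ∈ A :=
        add_mem hzhA (A.smul_mem hzA c0)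
      by_cases h3 : (fun g : G => z (g * h) - c0 * z g) = 0
      · refine ⟨c0, hcne, fun g => ?_⟩
        have h4 : z (g * h) - c0 * z g = 0 := congrFun h3 g
        exact sub_eq_zero.1 h4
      · by_cases h5 : (fun g : G => z (g * h) + c0 * z g) = 0
        · refine ⟨-c0, neg_ne_zero.2 hcne, fun g => ?_⟩
          have h4 : z (g * h) + c0 * z g = 0 := congrFun h5 g
          rw [neg_mul]
          exact eq_neg_of_add_eq_zero_left h4
        · exfalso
          obtain ⟨g, hg1, hg2⟩ := hirr.2 _ hm1 _ hm2 h3 h5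
          have h6 : (z (g * h) - c0 * z g) * (z (g * h) + c0 * z g) = 0 := by
            have := hzz g
            linear_combination this
          rcases mul_eq_zero.1 h6 with h7 | h7
          · exact hg1 h7
          · exact hg2 h7
    refine ⟨Matrix.diagonal (Sum.elim (fun _ => 1) (Sum.elim (fun _ => 1) (Sum.elim (fun _ => 1)
      (Sum.elim (fun _ => 1) (fun p => if p = (0, 0) then c else a))))), fun g hg => ?_⟩
    obtain ⟨c1, c2, c3, c4, c5⟩ := smul_coords haa (y g) (hd0 g hg)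
    refine ⟨?_, fun j => ?_⟩
    · show z (g * h) * mn (b11 (y (g * h))) ≠ 0
      rw [hyh, hzh, c1]
      refine mul_ne_zero (mul_ne_zero hc0' (hz0 g hg)) ?_
      have h3 : mn (a • b11 (y g)) = a ^ e * mn (b11 (y g)) := by
        unfold mn
        rw [show (a • b11 (y g)).submatrix Fin.succ Fin.succ =
          a • (b11 (y g)).submatrix Fin.succ Fin.succ from rfl, Matrix.det_smul, Fintype.card_fin]
      rw [h3]
      exact mul_ne_zero (pow_ne_zero _ ha0) (hm0 g hg)
    · have hsum : ∀ (f : NI (e + 1) false w → k) (j : NI (e + 1) false w),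
          ∑ l, Matrix.diagonal f j l * tz (z g) Jw (y g) l = f j * tz (z g) Jw (y g) j := by
        intro f j
        rw [Finset.sum_eq_single j]
        · rw [Matrix.diagonal_apply_eq]
        · intro l _ hl
          rw [Matrix.diagonal_apply_ne _ (Ne.symm hl), zero_mul]
        · intro hj; exact absurd (Finset.mem_univ _) hj
      rw [hsum]
      show tz (z (g * h)) Jw (y (g * h)) j = _
      rw [hyh, hzh]
      rcases j with p | p | p | p | p
      · show lC (a • y g) p.1 p.2 = 1 * lC (y g) p.1 p.2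
        rw [c2, one_mul]
      · show mK Jw (a • y g) p.1.1 p.1.2 = 1 * mK Jw (y g) p.1.1 p.1.2
        unfold mK
        rw [c2, c3]
        exact (one_mul _).symm
      · show mD (a • y g) p.1 p.2 = 1 * mD (y g) p.1 p.2
        rw [c5, one_mul]
      · show mK' 1 Jw (a • y g) p.1.1 p.1.2 = 1 * mK' 1 Jw (y g) p.1.1 p.1.2
        unfold mK'
        rw [c4, c5]
        exact (one_mul _).symm
      · show (if p = (0, 0) then c * z g else b11 (a • y g) p.1 p.2) =
          (if p = (0, 0) then c else a) * (if p = (0, 0) then z g else b11 (y g) p.1 p.2)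
        by_cases hp : p = (0, 0)
        · rw [if_pos hp, if_pos hp, if_pos hp]
        · rw [if_neg hp, if_neg hp, if_neg hp, c1]
          rfl

/-- the chart of the Spin group, equivariant for the elements over `1` and `-1` -/
theorem st_CCZ (h1 : ST_LEVF k) (h2 : ST_LEVC k) (h3 : ST_EQV k) (n : Type) [Fintype n]
    [DecidableEq n] (hn : 2 ≤ Fintype.card n)
    (hreg : ∀ i j, (fun g : SpinG n k => isoHom 1 (rho n k g) i j) ∈ sAlg n k)
    (hirr : Irr (sAlg n k)) (hrst : RStable (sAlg n k)) (Z : Subgroup (SpinG n k))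
    (hZ : ∀ h ∈ Z, isoHom 1 (rho n k h) = 1 ∨ isoHom 1 (rho n k h) = -1) :
    HasLChart (sAlg n k) ⊥ Z := by
  obtain ⟨e, he⟩ : ∃ e, Fintype.card n / 2 = e + 1 :=
    ⟨Fintype.card n / 2 - 1, by omega⟩
  set w := Fintype.card n % 2 with hw
  have hcard : Fintype.card n = 2 * (e + 1) + w := by
    rw [← he]; exact (Nat.div_add_mod _ 2).symm
  have hw2 : w < 2 := Nat.mod_lt _ (by norm_num)
  have hsub : Subsingleton (Fin w) := by
    refine ⟨fun a b => ?_⟩
    apply Fin.ext
    have := a.2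
    have := b.2
    omega
  have hJw : IsForm 1 (1 : Matrix (Fin w) (Fin w) k) :=
    ⟨Or.inl rfl, by rw [one_smul, Matrix.transpose_one], by rw [Matrix.det_one]; exact one_ne_zero⟩
  have hY : ∀ Y : Matrix (Fin w) (Fin w) k, Y.det = 1 → Y = 1 := by
    intro Y hYd
    interval_cases hw' : w
    · exact Subsingleton.elim _ _
    · ext i j
      fin_cases i
      fin_cases j
      rw [Matrix.det_fin_one] at hYd
      simpa using hYd
  have hLJ := LJ_isForm hJw (e + 1)
  have hc2 : Fintype.card n = Fintype.card (Fin (e + 1) ⊕ (Fin (e + 1) ⊕ Fin w)) := by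
    simp only [Fintype.card_sum, Fintype.card_fin]
    omega
  have hJ1 : IsForm 1 (1 : Matrix n n k) :=
    ⟨Or.inl rfl, by rw [one_smul, Matrix.transpose_one], by rw [Matrix.det_one]; exact one_ne_zero⟩
  obtain ⟨u, hu⟩ := h3 n (Fin (e + 1) ⊕ (Fin (e + 1) ⊕ Fin w)) 1 1 (LJ (Fin (e + 1)) 1 1)
    hJ1 hLJ hc2
  rw [Matrix.mul_one] at hu
  set v : Matrix (Fin (e + 1) ⊕ (Fin (e + 1) ⊕ Fin w)) n k :=
    (LJ (Fin (e + 1)) 1 (1 : Matrix (Fin w) (Fin w) k))⁻¹ * uᵀ with hv
  have hvu : v * u = 1 := by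
    rw [hv, Matrix.mul_assoc, hu, Matrix.nonsing_inv_mul _ (isUnit_iff_ne_zero.2 hLJ.det_ne)]
  have huv : u * v = 1 := (Matrix.mul_eq_one_comm_of_equiv (Fintype.equivOfCardEq hc2)).2 hvu
  exact ccz_chart h1 h2 e (Fin w) 1 hJw hY u v huv hvu hu hreg hirr hrst Z hZ

/-- The chart for a subgroup whose elements lie over `1` and `-1`. -/
theorem ccz_all (n : ℕ) (hn : 2 ≤ n) (Z : Subgroup (SpinG (Fin n) k))
    (hZ : ∀ h ∈ Z, isoHom 1 (rho (Fin n) k h) = 1 ∨ isoHom 1 (rho (Fin n) k h) = -1) :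
    HasLChart (sAlg (Fin n) k) ⊥ Z :=
  st_CCZ Pool.Agent.Helper19.CG.st_LEVF Pool.Agent.Helper19.CG.st_LEVC
    (Pool.Agent.Helper97.CG.st_EQV k) (Fin n) (by rw [Fintype.card_fin]; omega) rho_entry_mem
    (Pool.Agent.Helper72.SPN.spin_irr (by rw [Fintype.card_fin]; exact hn)) spin_rstable Z hZ

/-- The chart for the centre, if the centre of the special orthogonal group is known. -/
theorem ccz_center (n : ℕ) (hn : 2 ≤ n)
    (hc : ∀ z : IsoG (1 : Matrix (Fin n) (Fin n) k), z ∈ Subgroup.center _ →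
      isoHom 1 z = 1 ∨ isoHom 1 z = -1) :
    HasLChart (sAlg (Fin n) k) ⊥ (Subgroup.center (SpinG (Fin n) k)) := by
  refine ccz_all n hn _ fun h hh => hc _ ?_
  rw [Subgroup.mem_center_iff]
  intro x
  obtain ⟨g, rfl⟩ := rho_surjective x
  rw [← map_mul, ← map_mul, Subgroup.mem_center_iff.1 hh g]

end Main

end Pool.Agent.Helper78.SPN
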