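import Mathlib

/-!
# Row ZFN (MP_005e41): the half-spin type function on the Spin group
-/

set_option autoImplicit false
set_option linter.unusedSectionVars false

namespace Pool.Agent.Helper78.SPN

open CliffordAlgebra QuadraticMap Module

section Prod

variable {k V : Type*} [Field k] [AddCommGroup V] [Module k V] {Q : QuadraticForm k V}

/-- The ordered product of vectors. -/
noncomputable def pr (Q : QuadraticForm k V) {m : ℕ} (w : Fin m → V) : CliffordAlgebra Q :=
  (List.ofFn fun i => ι Q (w i)).prod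

lemma pr_zero (w : Fin 0 → V) : pr Q w = 1 := by simp [pr]

lemma pr_succ {m : ℕ} (w : Fin (m + 1) → V) :
    pr Q w = ι Q (w 0) * pr Q (fun i => w i.succ) := by
  simp [pr, List.ofFn_succ]

lemma anti {a b : V} (h : polar Q a b = 0) : ι Q a * ι Q b = -(ι Q b * ι Q a) := by
  have := ι_mul_ι_add_swap (Q := Q) a b
  rw [h, map_zero] at this
  exact eq_neg_of_add_eq_zero_left this

lemma sqz {a : V} (h : Q a = 0) : ι Q a * ι Q a = 0 := by
  rw [ι_sq_scalar, h, map_zero]

/-- A vector orthogonal to all factors (anti)commutes with the product. -/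
lemma pr_mul_vec (v : V) : ∀ {m : ℕ} (w : Fin m → V), (∀ i, polar Q v (w i) = 0) →
    pr Q w * ι Q v = (-1 : k) ^ m • (ι Q v * pr Q w) := by
  intro m
  induction m with
  | zero => intro w _; simp [pr_zero]
  | succ m ih =>
    intro w h
    rw [pr_succ, mul_assoc, ih _ (fun i => h i.succ), mul_smul_comm, ← mul_assoc,
      anti (Q := Q) (a := w 0) (b := v) (by rw [polar_comm]; exact h 0), pow_succ, neg_mul,
      smul_neg, mul_assoc]
    rw [mul_neg_one, neg_smul]

lemma vec_mul_pr (v : V) {m : ℕ} (w : Fin m → V) (h : ∀ i, polar Q v (w i) = 0) :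
    ι Q v * pr Q w = (-1 : k) ^ m • (pr Q w * ι Q v) := by
  rw [pr_mul_vec v w h, smul_smul, ← mul_pow]
  simp

/-- `f_i` is killed by the product on the left of it. -/
lemma pr_mul_self : ∀ {m : ℕ} (f : Fin m → V), (∀ i, Q (f i) = 0) →
    (∀ i j, polar Q (f i) (f j) = 0) → ∀ i, pr Q f * ι Q (f i) = 0 := by
  intro m
  induction m with
  | zero => intro f _ _ i; exact i.elim0
  | succ m ih =>
    intro f h1 h2 i
    rw [pr_succ, mul_assoc]
    refine Fin.cases ?_ (fun j => ?_) i
    · rw [pr_mul_vec _ _ (fun j => h2 0 j.succ), mul_smul_comm, ← mul_assoc, sqz (h1 0), zero_mul,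
        smul_zero]
    · rw [ih (fun i => f i.succ) (fun i => h1 _) (fun i j => h2 _ _) j, mul_zero]

lemma self_mul_pr {m : ℕ} (f : Fin m → V) (h1 : ∀ i, Q (f i) = 0)
    (h2 : ∀ i j, polar Q (f i) (f j) = 0) (i : Fin m) : ι Q (f i) * pr Q f = 0 := by
  rw [vec_mul_pr _ _ (fun j => h2 i j), pr_mul_self f h1 h2, smul_zero]

/-- A nonzero combination of the `f_i` divides the product. -/
lemma pr_dvd : ∀ {m : ℕ} (f : Fin m → V), (∀ i, Q (f i) = 0) →
    (∀ i j, polar Q (f i) (f j) = 0) → ∀ c : Fin m → k, c ≠ 0 →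
    ∃ y, pr Q f = ι Q (∑ i, c i • f i) * y := by
  intro m
  induction m with
  | zero => intro f _ _ c hc; exact absurd (Subsingleton.elim c 0) hc
  | succ m ih =>
    intro f h1 h2 c hc
    by_cases hc' : (fun i : Fin m => c i.succ) = 0
    · have h0 : c 0 ≠ 0 := by
        intro h
        apply hc
        funext i
        refine Fin.cases h (fun j => congrFun hc' j) i
      refine ⟨(c 0)⁻¹ • pr Q (fun i => f i.succ), ?_⟩
      rw [Fin.sum_univ_succ]
      have hs : ∑ i : Fin m, c i.succ • f i.succ = 0 :=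
        Finset.sum_eq_zero fun i _ => by
          have : c i.succ = 0 := congrFun hc' i
          rw [this, zero_smul]
      rw [hs, add_zero, map_smul, smul_mul_smul_comm, mul_inv_cancel₀ h0, one_smul, pr_succ]
    · obtain ⟨y, hy⟩ := ih (fun i => f i.succ) (fun i => h1 _) (fun i j => h2 _ _) _ hc'
      refine ⟨-(ι Q (f 0) * y), ?_⟩
      have ho : polar Q (f 0) (∑ i : Fin m, c i.succ • f i.succ) = 0 := by
        have : polar Q (f 0) (∑ i : Fin m, c i.succ • f i.succ) =
            (polarBilin Q (f 0)) (∑ i : Fin m, c i.succ • f i.succ) := rfl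
        rw [this, map_sum]
        refine Finset.sum_eq_zero fun i _ => ?_
        rw [map_smul]
        show c i.succ • polar Q (f 0) (f i.succ) = 0
        rw [h2, smul_zero]
      rw [pr_succ, hy, Fin.sum_univ_succ, map_add, add_mul, map_smul, smul_mul_assoc, mul_neg,
        ← mul_assoc (ι Q (f 0)) (ι Q (f 0)) y, sqz (h1 0), zero_mul, neg_zero, smul_zero, zero_add,
        mul_neg, ← mul_assoc, ← mul_assoc, anti ho]
      simp

/-- sign of the reversal -/
def sg (k : Type*) [Field k] : ℕ → k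
  | 0 => 1
  | m + 1 => sg k m * (-1) ^ m

lemma sg_sq : ∀ m, sg k m * sg k m = 1 := by
  intro m
  induction m with
  | zero => simp [sg]
  | succ m ih =>
    show sg k m * (-1) ^ m * (sg k m * (-1) ^ m) = 1
    have : ((-1 : k) ^ m) * (-1) ^ m = 1 := by rw [← mul_pow]; simp
    calc sg k m * (-1) ^ m * (sg k m * (-1) ^ m)
        = (sg k m * sg k m) * ((-1 : k) ^ m * (-1) ^ m) := by ring
      _ = 1 := by rw [ih, this, one_mul]

lemma reverse_pr : ∀ {m : ℕ} (e : Fin m → V), (∀ i j, i ≠ j → polar Q (e i) (e j) = 0) →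
    reverse (pr Q e) = sg k m • pr Q e := by
  intro m
  induction m with
  | zero => intro e _; simp [pr_zero, sg]
  | succ m ih =>
    intro e h
    rw [pr_succ, reverse.map_mul, reverse_ι,
      ih (fun i => e i.succ) (fun i j hij => h _ _ (fun hh => hij (Fin.succ_injective _ hh))),
      smul_mul_assoc, pr_mul_vec _ _ (fun i => h 0 i.succ (Fin.succ_ne_zero i).symm), smul_smul]
    rfl

lemma involute_pr : ∀ {m : ℕ} (e : Fin m → V), involute (pr Q e) = (-1 : k) ^ m • pr Q e := by
  intro m
  induction m with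
  | zero => intro e; simp [pr_zero]
  | succ m ih =>
    intro e
    rw [pr_succ, map_mul, involute_ι, ih, pow_succ, mul_smul_comm, neg_mul, mul_neg_one, neg_smul,
      smul_neg]

/-- The product of a list of vectors. -/
noncomputable def prl (Q : QuadraticForm k V) (l : List V) : CliffordAlgebra Q :=
  (l.map (ι Q)).prod

lemma prl_nil : prl Q [] = 1 := rfl

lemma prl_cons (a : V) (l : List V) : prl Q (a :: l) = ι Q a * prl Q l := by
  simp [prl]

lemma prl_append (l l' : List V) : prl Q (l ++ l') = prl Q l * prl Q l' := by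
  simp [prl]

lemma pr_eq {m : ℕ} (w : Fin m → V) : pr Q w = prl Q (List.ofFn w) := by
  rw [pr, prl, List.map_ofFn]
  rfl

lemma prl_mul_vec (v : V) : ∀ l : List V, (∀ w ∈ l, polar Q v w = 0) →
    prl Q l * ι Q v = (-1 : k) ^ l.length • (ι Q v * prl Q l) := by
  intro l
  induction l with
  | nil => intro _; simp [prl_nil]
  | cons a l ih =>
    intro h
    rw [prl_cons, mul_assoc, ih (fun w hw => h w (List.mem_cons_of_mem _ hw)), mul_smul_comm,
      ← mul_assoc, anti (Q := Q) (a := a) (b := v) (by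
        rw [polar_comm]; exact h a (List.mem_cons_self ..)), List.length_cons, pow_succ, neg_mul,
      smul_neg, mul_assoc]
    rw [mul_neg_one, neg_smul]

end Prod

section Hyperbolic

variable {k V : Type*} [Field k] [AddCommGroup V] [Module k V]

/-- A hyperbolic basis, with possibly one more vector. -/
structure HypB (Q : QuadraticForm k V) {m : ℕ} (e f : Fin m → V) (u : V) : Prop where
  qe : ∀ i, Q (e i) = 0
  qf : ∀ i, Q (f i) = 0
  ee : ∀ i j, polar Q (e i) (e j) = 0
  ff : ∀ i j, polar Q (f i) (f j) = 0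
  ef : ∀ i j, polar Q (e i) (f j) = if i = j then 1 else 0
  ue : ∀ i, polar Q u (e i) = 0
  uf : ∀ i, polar Q u (f i) = 0
  sp : ∀ v, ∃ a b : Fin m → k, ∃ c : k, v = ∑ i, a i • e i + ∑ i, b i • f i + c • u

variable {Q : QuadraticForm k V}

lemma pr_ne_zero [Invertible (2 : k)] : ∀ {m : ℕ} (e f : Fin m → V), (∀ i, Q (f i) = 0) →
    (∀ i j, polar Q (f i) (f j) = 0) →
    (∀ i j, polar Q (e i) (f j) = if i = j then 1 else 0) → pr Q f ≠ 0 := by
  intro m
  induction m with
  | zero => intro e f _ _ _; rw [pr_zero]; exact one_ne_zero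
  | succ m ih =>
    intro e f h1 h2 h3 h0
    apply ih (fun i => e i.succ) (fun i => f i.succ) (fun i => h1 _) (fun i j => h2 _ _)
      (fun i j => by rw [h3]; simp)
    rw [pr_succ] at h0
    set F := pr Q (fun i : Fin m => f i.succ) with hF
    have h4 : F * ι Q (e 0) = (-1 : k) ^ m • (ι Q (e 0) * F) :=
      pr_mul_vec _ _ (fun i => by rw [h3, if_neg (Fin.succ_ne_zero i).symm])
    have h5 : ι Q (f 0) * F * ι Q (e 0) = 0 := by rw [h0, zero_mul]
    rw [mul_assoc, h4, mul_smul_comm] at h5
    have h6 : ((-1 : k) ^ m) ≠ 0 := pow_ne_zero _ (neg_ne_zero.2 one_ne_zero)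
    have h7 : ι Q (f 0) * (ι Q (e 0) * F) = 0 := (smul_eq_zero.1 h5).resolve_left h6
    have h8 : ι Q (e 0) * (ι Q (f 0) * F) = 0 := by rw [h0, mul_zero]
    have h9 : ι Q (e 0) * ι Q (f 0) + ι Q (f 0) * ι Q (e 0) = 1 := by
      rw [ι_mul_ι_add_swap, h3, if_pos rfl, map_one]
    calc F = (ι Q (e 0) * ι Q (f 0) + ι Q (f 0) * ι Q (e 0)) * F := by rw [h9, one_mul]
      _ = 0 := by rw [add_mul, mul_assoc, mul_assoc, h7, h8, add_zero]

lemma two_comm {m : ℕ} (a b : Fin m → V) (v : V) (ha : ∀ i, polar Q v (a i) = 0)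
    (hb : ∀ i, polar Q v (b i) = 0) (s : k) :
    pr Q a * (s • pr Q b) * ι Q v = ι Q v * (pr Q a * (s • pr Q b)) := by
  have h : ((-1 : k) ^ m) * (-1) ^ m = 1 := by rw [← mul_pow]; simp
  rw [mul_smul_comm, smul_mul_assoc, mul_assoc, pr_mul_vec v b hb, mul_smul_comm, ← mul_assoc,
    pr_mul_vec v a ha, smul_mul_assoc, smul_smul (_ ^ m), h, one_smul, mul_smul_comm, mul_assoc]

lemma idem : ∀ {m : ℕ} (e f : Fin m → V), (∀ i, Q (f i) = 0) →
    (∀ i j, polar Q (e i) (e j) = 0) → (∀ i j, polar Q (f i) (f j) = 0) →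
    (∀ i j, polar Q (e i) (f j) = if i = j then 1 else 0) →
    pr Q f * (sg k m • pr Q e) * pr Q f = pr Q f := by
  intro m
  induction m with
  | zero => intro e f _ _ _ _; simp [pr_zero, sg]
  | succ m ih =>
    intro e f h1 h2 h3 h4
    have hi := ih (fun i => e i.succ) (fun i => f i.succ) (fun i => h1 _) (fun i j => h2 _ _)
      (fun i j => h3 _ _) (fun i j => by rw [h4]; simp)
    set F := pr Q (fun i : Fin m => f i.succ) with hF
    set E := pr Q (fun i : Fin m => e i.succ) with hE
    have hr : sg k (m + 1) • pr Q e = (sg k m • E) * ι Q (e 0) := by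
      rw [pr_succ, smul_mul_assoc, hE, pr_mul_vec _ _ (fun i => h2 0 i.succ), smul_smul]
      rfl
    have c1 : F * (sg k m • E) * ι Q (e 0) = ι Q (e 0) * (F * (sg k m • E)) :=
      two_comm _ _ _ (fun i => by rw [h4, if_neg (Fin.succ_ne_zero i).symm]) (fun i => h2 _ _) _
    have c2 : F * (sg k m • E) * ι Q (f 0) = ι Q (f 0) * (F * (sg k m • E)) :=
      two_comm _ _ _ (fun i => h3 _ _) (fun i => by
        rw [polar_comm, h4, if_neg (Fin.succ_ne_zero i)]) _
    have h9 : ι Q (e 0) * ι Q (f 0) + ι Q (f 0) * ι Q (e 0) = 1 := by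
      rw [ι_mul_ι_add_swap, h4, if_pos rfl, map_one]
    have h10 : ι Q (f 0) * (ι Q (e 0) * ι Q (f 0)) = ι Q (f 0) := by
      rw [eq_sub_of_add_eq h9, mul_sub, mul_one, ← mul_assoc, sqz (h1 0), zero_mul, sub_zero]
    rw [hr, pr_succ]
    calc ι Q (f 0) * F * (sg k m • E * ι Q (e 0)) * (ι Q (f 0) * F)
        = ι Q (f 0) * (F * (sg k m • E) * ι Q (e 0)) * ι Q (f 0) * F := by
          simp only [mul_assoc]
      _ = ι Q (f 0) * ι Q (e 0) * (F * (sg k m • E) * ι Q (f 0)) * F := by
          rw [c1]; simp only [mul_assoc]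
      _ = (ι Q (f 0) * (ι Q (e 0) * ι Q (f 0))) * (F * (sg k m • E) * F) := by
          rw [c2]; simp only [mul_assoc]
      _ = ι Q (f 0) * F := by rw [h10, hi]

/-- The space spanned by the products of the `f_i` times `w0` or `w1`. -/
inductive InN (Q : QuadraticForm k V) {m : ℕ} (f : Fin m → V) (w0 w1 : CliffordAlgebra Q) :
    CliffordAlgebra Q → Prop
  | zero : InN Q f w0 w1 0
  | a0 : InN Q f w0 w1 w0
  | a1 : InN Q f w0 w1 w1
  | add {x y : CliffordAlgebra Q} : InN Q f w0 w1 x → InN Q f w0 w1 y → InN Q f w0 w1 (x + y)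
  | smul (c : k) {x : CliffordAlgebra Q} : InN Q f w0 w1 x → InN Q f w0 w1 (c • x)
  | mulf (i : Fin m) {x : CliffordAlgebra Q} : InN Q f w0 w1 x → InN Q f w0 w1 (ι Q (f i) * x)

variable {m : ℕ} {e f : Fin m → V} {u : V}

lemma InN.neg {w0 w1 x : CliffordAlgebra Q} (h : InN Q f w0 w1 x) : InN Q f w0 w1 (-x) := by
  have := InN.smul (-1) h
  rwa [neg_one_smul] at this

lemma InN.sum {w0 w1 : CliffordAlgebra Q} {α : Type*} (s : Finset α)
    (x : α → CliffordAlgebra Q) (h : ∀ i ∈ s, InN Q f w0 w1 (x i)) :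
    InN Q f w0 w1 (∑ i ∈ s, x i) := by
  classical
  induction s using Finset.induction_on with
  | empty => rw [Finset.sum_empty]; exact InN.zero
  | insert a s ha ih =>
    rw [Finset.sum_insert ha]
    exact InN.add (h a (Finset.mem_insert_self ..))
      (ih fun i hi => h i (Finset.mem_insert_of_mem hi))

lemma InN.mule (H : HypB Q e f u) {x : CliffordAlgebra Q}
    (h : InN Q f (pr Q e) (ι Q u * pr Q e) x) (j : Fin m) :
    InN Q f (pr Q e) (ι Q u * pr Q e) (ι Q (e j) * x) := by
  induction h with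
  | zero => rw [mul_zero]; exact InN.zero
  | a0 => rw [self_mul_pr e H.qe H.ee]; exact InN.zero
  | a1 =>
    rw [← mul_assoc, anti (by rw [polar_comm]; exact H.ue j), neg_mul, mul_assoc,
      self_mul_pr e H.qe H.ee, mul_zero, neg_zero]
    exact InN.zero
  | add _ _ h1 h2 => rw [mul_add]; exact InN.add h1 h2
  | smul c _ h1 => rw [mul_smul_comm]; exact InN.smul c h1
  | mulf i hx h1 =>
    rename_i x
    have h9 : ι Q (e j) * ι Q (f i) =
        algebraMap k _ (polar Q (e j) (f i)) - ι Q (f i) * ι Q (e j) :=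
      eq_sub_of_add_eq (ι_mul_ι_add_swap _ _)
    rw [← mul_assoc, h9, sub_mul, ← Algebra.smul_def, sub_eq_add_neg, mul_assoc]
    exact InN.add (InN.smul _ hx) (InN.neg (InN.mulf i h1))

lemma InN.mulu (H : HypB Q e f u) {x : CliffordAlgebra Q}
    (h : InN Q f (pr Q e) (ι Q u * pr Q e) x) :
    InN Q f (pr Q e) (ι Q u * pr Q e) (ι Q u * x) := by
  induction h with
  | zero => rw [mul_zero]; exact InN.zero
  | a0 => exact InN.a1
  | a1 => rw [← mul_assoc, ι_sq_scalar, ← Algebra.smul_def]; exact InN.smul _ InN.a0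
  | add _ _ h1 h2 => rw [mul_add]; exact InN.add h1 h2
  | smul c _ h1 => rw [mul_smul_comm]; exact InN.smul c h1
  | mulf i hx h1 =>
    rw [← mul_assoc, anti (H.uf i), neg_mul, mul_assoc]
    exact InN.neg (InN.mulf i h1)

lemma InN.mulv (H : HypB Q e f u) {x : CliffordAlgebra Q}
    (h : InN Q f (pr Q e) (ι Q u * pr Q e) x) (v : V) :
    InN Q f (pr Q e) (ι Q u * pr Q e) (ι Q v * x) := by
  obtain ⟨a, b, c, rfl⟩ := H.sp v
  rw [map_add, map_add, add_mul, add_mul, map_sum, map_sum, Finset.sum_mul, Finset.sum_mul,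
    map_smul, smul_mul_assoc]
  refine InN.add (InN.add (InN.sum _ _ fun i _ => ?_) (InN.sum _ _ fun i _ => ?_))
    (InN.smul _ (h.mulu H))
  · rw [map_smul, smul_mul_assoc]; exact InN.smul _ (h.mule H i)
  · rw [map_smul, smul_mul_assoc]; exact InN.smul _ (InN.mulf i h)

lemma InN.all (H : HypB Q e f u) (c : CliffordAlgebra Q) :
    InN Q f (pr Q e) (ι Q u * pr Q e) (c * pr Q e) := by
  induction c using CliffordAlgebra.left_induction with
  | algebraMap r => rw [← Algebra.smul_def]; exact InN.smul _ InN.a0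
  | add x y hx hy => rw [add_mul]; exact InN.add hx hy
  | ι_mul x v hx => rw [mul_assoc]; exact hx.mulv H v

lemma fN (H : HypB Q e f u) {x : CliffordAlgebra Q}
    (h : InN Q f (pr Q e) (ι Q u * pr Q e) x) :
    ∃ a b : k, pr Q f * x = a • (pr Q f * pr Q e) + b • (pr Q f * (ι Q u * pr Q e)) := by
  induction h with
  | zero => exact ⟨0, 0, by simp⟩
  | a0 => exact ⟨1, 0, by simp⟩
  | a1 => exact ⟨0, 1, by simp⟩
  | add _ _ h1 h2 =>
    obtain ⟨a, b, h1⟩ := h1
    obtain ⟨a', b', h2⟩ := h2
    exact ⟨a + a', b + b', by rw [mul_add, h1, h2, add_smul, add_smul]; abel⟩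
  | smul c _ h1 =>
    obtain ⟨a, b, h1⟩ := h1
    exact ⟨c * a, c * b, by rw [mul_smul_comm, h1, smul_add, smul_smul, smul_smul]⟩
  | mulf i _ _ =>
    exact ⟨0, 0, by rw [← mul_assoc, pr_mul_self f H.qf H.ff]; simp⟩

/-- `f c e` is a multiple of `f e` for even `c`. -/
lemma exists_coef [Invertible (2 : k)] (H : HypB Q e f u) {c : CliffordAlgebra Q}
    (hc : involute c = c) :
    ∃ a : k, pr Q f * c * pr Q e = a • (pr Q f * pr Q e) := by
  obtain ⟨a, b, h⟩ := fN H (InN.all H c)
  refine ⟨a, ?_⟩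
  rw [mul_assoc]
  have h1 : ((-1 : k) ^ m) * (-1) ^ m = 1 := by rw [← mul_pow]; simp
  have h2 : involute (pr Q f * (c * pr Q e)) = pr Q f * (c * pr Q e) := by
    rw [map_mul, map_mul, hc, involute_pr, involute_pr, mul_smul_comm, smul_mul_smul_comm, h1,
      one_smul]
  have h3 : involute (pr Q f * pr Q e) = pr Q f * pr Q e := by
    rw [map_mul, involute_pr, involute_pr, smul_mul_smul_comm, h1, one_smul]
  have h4 : involute (pr Q f * (ι Q u * pr Q e)) = -(pr Q f * (ι Q u * pr Q e)) := by
    rw [map_mul, map_mul, involute_ι, involute_pr, involute_pr, mul_smul_comm,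
      smul_mul_smul_comm, h1, one_smul, neg_mul, mul_neg]
  rw [h, map_add, map_smul, map_smul, h3, h4, smul_neg] at h2
  have h5 : b • (pr Q f * (ι Q u * pr Q e)) + b • (pr Q f * (ι Q u * pr Q e)) = 0 := by
    have := add_left_cancel h2
    nth_rewrite 1 [← this]
    exact neg_add_cancel _
  rw [← two_smul k, smul_eq_zero] at h5
  rcases h5 with h5 | h5
  · exact absurd h5 (Invertible.ne_zero 2)
  · rw [h, h5, add_zero]

lemma f_mul_comb (H : HypB Q e f u) (c : Fin m → k) :
    pr Q f * ι Q (∑ i, c i • f i) = 0 := by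
  rw [map_sum, Finset.mul_sum]
  refine Finset.sum_eq_zero fun i _ => ?_
  rw [map_smul, mul_smul_comm, pr_mul_self f H.qf H.ff, smul_zero]

/-- Fewer than `m` vectors between two copies of `f`. -/
lemma few (H : HypB Q e f u) (l : List V) (hl : l.length < m) :
    pr Q f * prl Q l * pr Q f = 0 := by
  let T : (Fin m → k) →ₗ[k] (Fin l.length → k) := LinearMap.pi fun j =>
    (polarBilin Q (l.get j)) ∘ₗ (Fintype.linearCombination k f)
  have hk : LinearMap.ker T ≠ ⊥ := LinearMap.ker_ne_bot_of_finrank_lt (by simpa using hl)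
  obtain ⟨c, hc, hc0⟩ := Submodule.exists_mem_ne_zero_of_ne_bot hk
  obtain ⟨y, hy⟩ := pr_dvd f H.qf H.ff c hc0
  have ho : ∀ w ∈ l, polar Q (∑ i, c i • f i) w = 0 := by
    intro w hw
    obtain ⟨j, rfl⟩ := List.get_of_mem hw
    have h1 : T c j = 0 := by rw [LinearMap.mem_ker.1 hc]; rfl
    have h2 : T c j = polar Q (l.get j) (∑ i, c i • f i) := by
      show polarBilin Q (l.get j) (Fintype.linearCombination k f c) = _
      rw [Fintype.linearCombination_apply]
      rfl
    rw [polar_comm, ← h2, h1]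
  calc pr Q f * prl Q l * pr Q f
      = pr Q f * (prl Q l * ι Q (∑ i, c i • f i)) * y := by
        nth_rewrite 2 [hy]; simp only [mul_assoc]
    _ = 0 := by
        rw [prl_mul_vec _ l ho, mul_smul_comm, ← mul_assoc, f_mul_comb H, zero_mul, smul_zero,
          zero_mul]

lemma alt_aux (H : HypB Q e f u) (a : V) : ∀ l2 l1 l3 : List V,
    l1.length + l2.length + l3.length + 2 ≤ m →
    pr Q f * (prl Q l1 * (ι Q a * (prl Q l2 * (ι Q a * prl Q l3)))) * pr Q f = 0 := by
  intro l2
  induction l2 with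
  | nil =>
    intro l1 l3 h
    rw [prl_nil, one_mul, ← mul_assoc (ι Q a), ι_sq_scalar, ← Algebra.smul_def, mul_smul_comm,
      mul_smul_comm, smul_mul_assoc, ← prl_append, few H _ (by
        rw [List.length_append]; simp only [List.length_nil] at h; omega), smul_zero]
  | cons b t ih =>
    intro l1 l3 h
    simp only [List.length_cons] at h
    have h9 : ι Q a * ι Q b = algebraMap k _ (polar Q a b) - ι Q b * ι Q a :=
      eq_sub_of_add_eq (ι_mul_ι_add_swap _ _)
    rw [prl_cons, mul_assoc (ι Q b), ← mul_assoc (ι Q a) (ι Q b), h9, sub_mul, mul_sub, mul_sub,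
      sub_mul, ← Algebra.smul_def, mul_smul_comm, mul_smul_comm, smul_mul_assoc]
    have e1 : pr Q f * (prl Q l1 * (prl Q t * (ι Q a * prl Q l3))) * pr Q f = 0 := by
      rw [← prl_cons, ← prl_append, ← prl_append]
      refine few H _ ?_
      simp only [List.length_append, List.length_cons]
      omega
    have e2 := ih (l1 ++ [b]) l3 (by
      rw [List.length_append]; simp only [List.length_cons, List.length_nil]; omega)
    rw [prl_append, prl_cons, prl_nil, mul_one, mul_assoc (prl Q l1)] at e2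
    rw [e1, smul_zero, zero_sub, mul_assoc (ι Q b), e2, neg_zero]

lemma alt_list (H : HypB Q e f u) (l : List V) (hl : l.length = m) (hd : ¬ l.Nodup) :
    pr Q f * prl Q l * pr Q f = 0 := by
  rw [List.nodup_iff_sublist] at hd
  push Not at hd
  obtain ⟨a, ha⟩ := hd
  obtain ⟨r1, r2, rfl, h1, h2⟩ := List.cons_sublist_iff.1 ha
  obtain ⟨s, t, rfl⟩ := List.append_of_mem h1
  obtain ⟨s', t', rfl⟩ := List.append_of_mem (List.singleton_sublist.1 h2)
  have := alt_aux H a (t ++ s') s t' (by
    simp only [List.length_append, List.length_cons] at hl ⊢; omega)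
  rw [← this]
  congr 2
  simp only [prl_append, prl_cons, mul_assoc]

/-- The alternating map `w ↦ f w f`. -/
noncomputable def DD (H : HypB Q e f u) (lam : CliffordAlgebra Q →ₗ[k] k) :
    V [⋀^Fin m]→ₗ[k] k where
  toMultilinearMap := (lam ∘ₗ (LinearMap.mulLeft k (pr Q f) ∘ₗ
    LinearMap.mulRight k (pr Q f))).compMultilinearMap
      ((MultilinearMap.mkPiAlgebraFin k m (CliffordAlgebra Q)).compLinearMap fun _ => ι Q)
  map_eq_zero_of_eq' := by
    intro v i j hij hne
    show lam (pr Q f * ((MultilinearMap.mkPiAlgebraFin k m (CliffordAlgebra Q))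
      (fun i => ι Q (v i)) * pr Q f)) = 0
    rw [MultilinearMap.mkPiAlgebraFin_apply]
    have h1 : (List.ofFn fun i => ι Q (v i)).prod = prl Q (List.ofFn v) := pr_eq v
    have h2 : ¬ (List.ofFn v).Nodup := by
      rw [List.nodup_ofFn]
      intro hi
      exact hne (hi hij)
    rw [h1, ← mul_assoc, alt_list H _ (List.length_ofFn ..) h2, map_zero]

lemma DD_apply (H : HypB Q e f u) (lam : CliffordAlgebra Q →ₗ[k] k) (v : Fin m → V) :
    DD H lam v = lam (pr Q f * pr Q v * pr Q f) := by
  show lam (pr Q f * ((MultilinearMap.mkPiAlgebraFin k m (CliffordAlgebra Q))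
      (fun i => ι Q (v i)) * pr Q f)) = _
  rw [MultilinearMap.mkPiAlgebraFin_apply, mul_assoc]
  rfl

/-- Vectors which are killed at the left end are killed everywhere. -/
lemma kill (H : HypB Q e f u) (v : V)
    (hv : ∀ l : List V, l.length + 1 ≤ m → pr Q f * (ι Q v * prl Q l) * pr Q f = 0) :
    ∀ l1 l2 : List V, l1.length + l2.length + 1 ≤ m →
      pr Q f * (prl Q l1 * (ι Q v * prl Q l2)) * pr Q f = 0 := by
  intro l1
  induction l1 using List.reverseRecOn with
  | nil =>
    intro l2 h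
    rw [prl_nil, one_mul]
    exact hv l2 (by simpa using h)
  | append_singleton t b ih =>
    intro l2 h
    simp only [List.length_append, List.length_cons, List.length_nil] at h
    have h9 : ι Q b * ι Q v = algebraMap k _ (polar Q b v) - ι Q v * ι Q b :=
      eq_sub_of_add_eq (ι_mul_ι_add_swap _ _)
    rw [prl_append, prl_cons, prl_nil, mul_one, mul_assoc (prl Q t), ← mul_assoc (ι Q b), h9,
      sub_mul, mul_sub, mul_sub, sub_mul, ← Algebra.smul_def, mul_smul_comm, mul_smul_comm,
      smul_mul_assoc]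
    have e1 : pr Q f * (prl Q t * prl Q l2) * pr Q f = 0 := by
      rw [← prl_append]
      refine few H _ ?_
      rw [List.length_append]
      omega
    have e2 := ih (b :: l2) (by simp only [List.length_cons]; omega)
    rw [prl_cons] at e2
    rw [e1, smul_zero, zero_sub, mul_assoc (ι Q v), e2, neg_zero]

lemma kill_f (H : HypB Q e f u) (i : Fin m) (l1 l2 : List V)
    (h : l1.length + l2.length + 1 ≤ m) :
    pr Q f * (prl Q l1 * (ι Q (f i) * prl Q l2)) * pr Q f = 0 := by
  refine kill H _ (fun l _ => ?_) l1 l2 h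
  rw [← mul_assoc, pr_mul_self f H.qf H.ff, zero_mul, zero_mul]

lemma kill_u (H : HypB Q e f u) (l1 l2 : List V)
    (h : l1.length + l2.length + 1 ≤ m) :
    pr Q f * (prl Q l1 * (ι Q u * prl Q l2)) * pr Q f = 0 := by
  refine kill H _ (fun l hl => ?_) l1 l2 h
  rw [← mul_assoc, pr_mul_vec u f H.uf, smul_mul_assoc, mul_assoc, smul_mul_assoc, mul_assoc,
    few H l (by omega), mul_zero, smul_zero]

/-- Only the components in the span of the `e_i` matter. -/
lemma kill_comb (H : HypB Q e f u) (b : Fin m → k) (c : k) (l1 l2 : List V)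
    (h : l1.length + l2.length + 1 ≤ m) :
    pr Q f * (prl Q l1 * (ι Q (∑ i, b i • f i + c • u) * prl Q l2)) * pr Q f = 0 := by
  rw [map_add, map_sum, map_smul, add_mul, mul_add, mul_add, add_mul, smul_mul_assoc,
    mul_smul_comm, mul_smul_comm, smul_mul_assoc, kill_u H l1 l2 h, smul_zero, add_zero,
    Finset.sum_mul, Finset.mul_sum, Finset.mul_sum, Finset.sum_mul]
  refine Finset.sum_eq_zero fun i _ => ?_
  rw [map_smul, smul_mul_assoc, mul_smul_comm, mul_smul_comm, smul_mul_assoc,
    kill_f H i l1 l2 h, smul_zero]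

lemma replace (H : HypB Q e f u) : ∀ (n : ℕ) (w w' : Fin n → V) (l1 : List V),
    l1.length + n ≤ m →
    (∀ j, ∃ (b : Fin m → k) (c : k), w j = w' j + (∑ i, b i • f i + c • u)) →
    pr Q f * (prl Q l1 * pr Q w) * pr Q f = pr Q f * (prl Q l1 * pr Q w') * pr Q f := by
  intro n
  induction n with
  | zero => intro w w' l1 _ _; rw [pr_zero, pr_zero]
  | succ n ih =>
    intro w w' l1 h hw
    obtain ⟨b, c, h0⟩ := hw 0
    have e1 : pr Q f * (prl Q l1 * (ι Q (∑ i, b i • f i + c • u) *
        pr Q (fun i => w i.succ))) * pr Q f = 0 := by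
      rw [pr_eq (fun i : Fin n => w i.succ)]
      exact kill_comb H b c l1 _ (by rw [List.length_ofFn]; omega)
    have e2 := ih (fun i => w i.succ) (fun i => w' i.succ) (l1 ++ [w' 0]) (by
      simp only [List.length_append, List.length_cons, List.length_nil]; omega)
      (fun j => hw j.succ)
    rw [prl_append, prl_cons, prl_nil, mul_one, mul_assoc (prl Q l1), mul_assoc (prl Q l1)] at e2
    rw [pr_succ, pr_succ w', h0, map_add, add_mul, mul_add, mul_add, add_mul, e1, add_zero, e2]

lemma det_formula (H : HypB Q e f u) (lam : CliffordAlgebra Q →ₗ[k] k)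
    (al : Matrix (Fin m) (Fin m) k) (w : Fin m → V)
    (hw : ∀ j, ∃ (b : Fin m → k) (c : k),
      w j = ∑ i, al i j • e i + (∑ i, b i • f i + c • u)) :
    lam (pr Q f * pr Q w * pr Q f) = al.det * lam (pr Q f * pr Q e * pr Q f) := by
  have h1 := replace H m w (fun j => ∑ i, al i j • e i) [] (by simp) hw
  rw [prl_nil, one_mul, one_mul] at h1
  rw [h1, ← DD_apply H lam, ← DD_apply H lam]
  let g : (Fin m → k) [⋀^Fin m]→ₗ[k] k := (DD H lam).compLinearMap (Fintype.linearCombination k e)
  have h2 := AlternatingMap.eq_smul_basis_det (Pi.basisFun k (Fin m)) g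
  have h3 : DD H lam (fun j => ∑ i, al i j • e i) = g (fun j => al.transpose j) := by
    show _ = DD H lam (fun j => Fintype.linearCombination k e (al.transpose j))
    congr 1
  have h4 : g (Pi.basisFun k (Fin m)) = DD H lam e := by
    show DD H lam (fun j => Fintype.linearCombination k e ((Pi.basisFun k (Fin m)) j)) = _
    congr 1
    funext j
    rw [Fintype.linearCombination_apply, Pi.basisFun_apply, Finset.sum_eq_single j]
    · rw [Pi.single_eq_same, one_smul]
    · intro i _ hi
      rw [Pi.single_eq_of_ne hi, zero_smul]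
    · intro hj
      exact absurd (Finset.mem_univ j) hj
  rw [h3, h2, AlternatingMap.smul_apply, h4, Pi.basisFun_det_apply, smul_eq_mul, mul_comm]
  congr 1
  rw [← Matrix.det_transpose al]
  rfl

lemma conj_pr {g g' : CliffordAlgebra Q} (h1 : g * g' = 1) (h2 : g' * g = 1) :
    ∀ {n : ℕ} (w w' : Fin n → V), (∀ j, g * ι Q (w j) * g' = ι Q (w' j)) →
      g * pr Q w * g' = pr Q w' := by
  intro n
  induction n with
  | zero => intro w w' _; rw [pr_zero, pr_zero, mul_one, h1]
  | succ n ih =>
    intro w w' h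
    rw [pr_succ, pr_succ, ← h 0, ← ih (fun i => w i.succ) (fun i => w' i.succ) (fun j => h _)]
    calc g * (ι Q (w 0) * pr Q fun i => w i.succ) * g'
        = g * ι Q (w 0) * 1 * (pr Q fun i => w i.succ) * g' := by
          simp only [mul_assoc, mul_one]
      _ = g * ι Q (w 0) * g' * (g * (pr Q fun i => w i.succ) * g') := by
          rw [← h2]; simp only [mul_assoc]

/-- The function `z` on the Clifford algebra: its square at an element of the Spin group is the
determinant of the first block. -/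
theorem exists_z [Invertible (2 : k)] (H : HypB Q e f u) :
    ∃ z : CliffordAlgebra Q →ₗ[k] k, z 1 = 1 ∧
      ∀ g : CliffordAlgebra Q, involute g = g → g * reverse g = 1 → reverse g * g = 1 →
      ∀ al : Matrix (Fin m) (Fin m) k,
        (∀ j, ∃ (b : Fin m → k) (c : k), g * ι Q (e j) * reverse g =
          ι Q (∑ i, al i j • e i + (∑ i, b i • f i + c • u))) →
        z g ^ 2 = al.det := by
  have hid := idem e f H.qf H.ee H.ff H.ef
  have hF := pr_ne_zero e f H.qf H.ff H.ef
  have hFEF : pr Q f * pr Q e * pr Q f ≠ 0 := by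
    intro h
    apply hF
    rw [← hid, mul_smul_comm, smul_mul_assoc, h, smul_zero]
  have hFE : pr Q f * pr Q e ≠ 0 := fun h => hFEF (by rw [h, zero_mul])
  obtain ⟨mu, hmu⟩ : ∃ mu : CliffordAlgebra Q →ₗ[k] k, mu (pr Q f * pr Q e) ≠ 0 := by
    by_contra hcon
    push Not at hcon
    exact hFE ((Module.forall_dual_apply_eq_zero_iff k _).1 hcon)
  obtain ⟨la, hla⟩ : ∃ la : CliffordAlgebra Q →ₗ[k] k, la (pr Q f * pr Q e * pr Q f) ≠ 0 := by
    by_contra hcon
    push Not at hcon
    exact hFEF ((Module.forall_dual_apply_eq_zero_iff k _).1 hcon)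
  set z : CliffordAlgebra Q →ₗ[k] k := (mu (pr Q f * pr Q e))⁻¹ •
    (mu ∘ₗ (LinearMap.mulLeft k (pr Q f) ∘ₗ LinearMap.mulRight k (pr Q e))) with hz
  have hzc : ∀ c : CliffordAlgebra Q, involute c = c →
      pr Q f * c * pr Q e = z c • (pr Q f * pr Q e) := by
    intro c hc
    obtain ⟨a, ha⟩ := exists_coef H hc
    have : z c = a := by
      show (mu (pr Q f * pr Q e))⁻¹ • mu (pr Q f * (c * pr Q e)) = a
      rw [← mul_assoc, ha, map_smul, smul_eq_mul, smul_eq_mul]
      field_simp
    rw [this, ha]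
  refine ⟨z, ?_, ?_⟩
  · show (mu (pr Q f * pr Q e))⁻¹ • mu (pr Q f * (1 * pr Q e)) = 1
    rw [one_mul, smul_eq_mul, inv_mul_cancel₀ hmu]
  · intro g hg h1 h2 al hal
    choose b c hbc using hal
    have e1 := hzc g hg
    have e2 : pr Q e * reverse g * pr Q f = z g • (pr Q e * pr Q f) := by
      have h3 := congrArg reverse e1
      rw [map_smul, reverse.map_mul, reverse.map_mul, reverse.map_mul,
        reverse_pr e (fun i j _ => H.ee i j), reverse_pr f (fun i j _ => H.ff i j)] at h3
      rw [mul_smul_comm, mul_smul_comm, smul_mul_assoc, smul_smul, sg_sq, one_smul,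
        smul_mul_smul_comm, sg_sq, one_smul, ← mul_assoc] at h3
      exact h3
    have e3 : pr Q f * (g * pr Q e * reverse g) * pr Q f =
        (z g * z g) • (pr Q f * pr Q e * pr Q f) := by
      calc pr Q f * (g * pr Q e * reverse g) * pr Q f
          = (pr Q f * g * pr Q e) * reverse g * pr Q f := by simp only [mul_assoc]
        _ = z g • (pr Q f * (pr Q e * reverse g * pr Q f)) := by
            rw [e1]; simp only [smul_mul_assoc, mul_assoc]
        _ = (z g * z g) • (pr Q f * pr Q e * pr Q f) := by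
            rw [e2, mul_smul_comm, smul_smul, mul_assoc]
    rw [conj_pr h1 h2 e (fun j => ∑ i, al i j • e i + (∑ i, b j i • f i + c j • u)) hbc] at e3
    have e4 := det_formula H la al
      (fun j => ∑ i, al i j • e i + (∑ i, b j i • f i + c j • u)) (fun j => ⟨b j, c j, rfl⟩)
    rw [e3, map_smul, smul_eq_mul] at e4
    rw [pow_two]
    exact mul_right_cancel₀ hla e4

end Hyperbolic

end Pool.Agent.Helper78.SPN
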