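import Pool.Agent.Helper67.SPN.Rho
import Pool.Agent.Helper97.CG.Base
import Pool.Agent.Helper78.SPN.ZFN

/-!
# Row ZFN (MP_005e41): the function `z` for the standard form
-/

set_option autoImplicit false
set_option linter.unusedSectionVars false

namespace Pool.Agent.Helper78.SPN

open CliffordAlgebra QuadraticMap Matrix Pool.Agent.Helper14.RG Pool.Agent.Helper97.CG
  Pool.Agent.Helper67.SPN

variable {k : Type*} [Field k] [CharZero k] {n : Type} [Fintype n] [DecidableEq n]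
  {w : Type} [Fintype w] [DecidableEq w] [Subsingleton w] {m : ℕ}

/-- a column -/
def cl (u : Matrix n (Fin m ⊕ (Fin m ⊕ w)) k) (a : Fin m ⊕ (Fin m ⊕ w)) : n → k := fun i => u i a

lemma cl_dot (u : Matrix n (Fin m ⊕ (Fin m ⊕ w)) k) (a b : Fin m ⊕ (Fin m ⊕ w)) :
    cl u a ⬝ᵥ cl u b = (uᵀ * u) a b := rfl

/-- the vectors of the hyperbolic basis -/
def ee (u : Matrix n (Fin m ⊕ (Fin m ⊕ w)) k) (j : Fin m) : n → k := cl u (Sum.inl j)
/-- the vectors of the hyperbolic basis -/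
noncomputable def ff (u : Matrix n (Fin m ⊕ (Fin m ⊕ w)) k) (j : Fin m) : n → k :=
  (2 : k)⁻¹ • cl u (Sum.inr (Sum.inl j))
/-- the last vector -/
def uu (u : Matrix n (Fin m ⊕ (Fin m ⊕ w)) k) : n → k := ∑ a : w, cl u (Sum.inr (Sum.inr a))

lemma comb (u : Matrix n (Fin m ⊕ (Fin m ⊕ w)) k) (c : Fin m ⊕ (Fin m ⊕ w) → k) :
    u *ᵥ c = ∑ i, c (Sum.inl i) • ee u i + (∑ i, (2 * c (Sum.inr (Sum.inl i))) • ff u i +
      (∑ a : w, c (Sum.inr (Sum.inr a))) • uu u) := by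
  have h1 : (∑ a : w, c (Sum.inr (Sum.inr a))) • uu u =
      ∑ a : w, c (Sum.inr (Sum.inr a)) • cl u (Sum.inr (Sum.inr a)) := by
    unfold uu
    rw [Finset.sum_smul]
    refine Finset.sum_congr rfl fun a _ => ?_
    congr 1
    exact Fintype.sum_subsingleton _ a
  have h2 : ∀ i : Fin m, (2 * c (Sum.inr (Sum.inl i))) • ff u i =
      c (Sum.inr (Sum.inl i)) • cl u (Sum.inr (Sum.inl i)) := by
    intro i
    unfold ff
    rw [smul_smul]
    congr 1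
    have : (2 : k) ≠ 0 := two_ne_zero
    field_simp
  rw [h1, Finset.sum_congr rfl fun i _ => h2 i]
  funext x
  show ∑ a, u x a * c a = _
  rw [Fintype.sum_sum_type, Fintype.sum_sum_type]
  simp only [Pi.add_apply, Finset.sum_apply, Pi.smul_apply, smul_eq_mul, ee, cl, mul_comm]

lemma hypB {u : Matrix n (Fin m ⊕ (Fin m ⊕ w)) k} {v : Matrix (Fin m ⊕ (Fin m ⊕ w)) n k}
    {Jw : Matrix w w k} (huv : u * v = 1) (hu : uᵀ * u = LJ (Fin m) 1 Jw) :
    HypB (Qn n k) (ee u) (ff u) (uu u) where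
  qe i := by
    rw [Qn_apply]
    show cl u _ ⬝ᵥ cl u _ = 0
    rw [cl_dot, hu]
    rfl
  qf i := by
    rw [Qn_apply]
    show ((2 : k)⁻¹ • cl u (Sum.inr (Sum.inl i))) ⬝ᵥ ((2 : k)⁻¹ • cl u (Sum.inr (Sum.inl i))) = 0
    rw [smul_dotProduct, dotProduct_smul, cl_dot, hu]
    show (2 : k)⁻¹ • (2 : k)⁻¹ • (0 : k) = 0
    rw [smul_zero, smul_zero]
  ee i j := by
    rw [polar_Qn]
    show 2 * (cl u _ ⬝ᵥ cl u _) = 0
    rw [cl_dot, hu]
    show 2 * (0 : k) = 0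
    rw [mul_zero]
  ff i j := by
    rw [polar_Qn]
    show 2 * (((2 : k)⁻¹ • cl u (Sum.inr (Sum.inl i))) ⬝ᵥ
      ((2 : k)⁻¹ • cl u (Sum.inr (Sum.inl j)))) = 0
    rw [smul_dotProduct, dotProduct_smul, cl_dot, hu]
    show 2 * ((2 : k)⁻¹ • (2 : k)⁻¹ • (0 : k)) = 0
    rw [smul_zero, smul_zero, mul_zero]
  ef i j := by
    rw [polar_Qn]
    show 2 * ((cl u (Sum.inl i)) ⬝ᵥ ((2 : k)⁻¹ • cl u (Sum.inr (Sum.inl j)))) = _
    rw [dotProduct_smul, cl_dot, hu]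
    show 2 * ((2 : k)⁻¹ • ((1 : Matrix (Fin m) (Fin m) k) i j)) = _
    rw [smul_eq_mul, ← mul_assoc, mul_inv_cancel₀ two_ne_zero, one_mul, Matrix.one_apply]
  ue i := by
    rw [polar_Qn]
    show 2 * ((∑ a : w, cl u (Sum.inr (Sum.inr a))) ⬝ᵥ cl u (Sum.inl i)) = 0
    rw [sum_dotProduct, Finset.sum_eq_zero, mul_zero]
    intro a _
    rw [cl_dot, hu]
    rfl
  uf i := by
    rw [polar_Qn]
    show 2 * ((∑ a : w, cl u (Sum.inr (Sum.inr a))) ⬝ᵥ
      ((2 : k)⁻¹ • cl u (Sum.inr (Sum.inl i)))) = 0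
    rw [dotProduct_smul, sum_dotProduct, Finset.sum_eq_zero, smul_zero, mul_zero]
    intro a _
    rw [cl_dot, hu]
    rfl
  sp x := by
    have h1 : x = u *ᵥ (v *ᵥ x) := by rw [mulVec_mulVec, huv, one_mulVec]
    refine ⟨fun i => (v *ᵥ x) (Sum.inl i), fun i => 2 * (v *ᵥ x) (Sum.inr (Sum.inl i)),
      ∑ a : w, (v *ᵥ x) (Sum.inr (Sum.inr a)), ?_⟩
    nth_rewrite 1 [h1]
    rw [comb, add_assoc]

/-- ZFN: the function `z` on the Spin group, `z (-g) = - z g`, `z g ^ 2 = det (b11 (ρ g))`. -/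
theorem st_ZFN (u : Matrix n (Fin m ⊕ (Fin m ⊕ w)) k) (v : Matrix (Fin m ⊕ (Fin m ⊕ w)) n k)
    (Jw : Matrix w w k) (huv : u * v = 1) (hvu : v * u = 1)
    (hu : uᵀ * u = LJ (Fin m) 1 Jw) :
    ∃ φ : Cln n k →ₗ[k] k, φ 1 = 1 ∧ ∀ g : SpinG n k, φ (g : Cln n k) ^ 2 =
      (b11 (v * isoHom 1 (rho n k g) * u)).det := by
  let _ : Invertible (2 : k) := invertibleOfNonzero two_ne_zero
  obtain ⟨z, hz1, hz⟩ := exists_z (hypB huv hu)
  refine ⟨z, hz1, fun g => ?_⟩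
  have hinv : involute (g : Cln n k) = (g : Cln n k) := spinGroup.involute_eq g.2
  have hst : star (g : Cln n k) = reverse (g : Cln n k) := by
    rw [star_def, hinv]
  have h1 : (g : Cln n k) * reverse (g : Cln n k) = 1 := by
    rw [← hst]; exact spinGroup.mul_star_self_of_mem g.2
  have h2 : reverse (g : Cln n k) * (g : Cln n k) = 1 := by
    rw [← hst]; exact spinGroup.star_mul_self_of_mem g.2
  refine hz g hinv h1 h2 _ fun j => ?_
  set y := v * isoHom 1 (rho n k g) * u with hy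
  have h3 : isoHom 1 (rho n k g) *ᵥ ee u j = u *ᵥ (fun a => y a (Sum.inl j)) := by
    have h4 : isoHom 1 (rho n k g) * u = u * y := by
      rw [hy, ← Matrix.mul_assoc, ← Matrix.mul_assoc, huv, Matrix.one_mul]
    funext i
    exact congrFun (congrFun h4 i) (Sum.inl j)
  have h5 := rho_spec g (ee u j)
  rw [hst, h3, comb] at h5
  exact ⟨_, _, h5.symm⟩

end Pool.Agent.Helper78.SPN
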